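import Mathlib

/-!
# Line segments do not suffice for multi-directional blocking orders

For every `m` at least 20 there is an `m`-directional blocking order of disjoint compact convex
figures that is not isomorphic to any `m`-directional blocking order of disjoint closed line
segments (segments that are single points are allowed as well).

Outline.

Convex side. Fix `m = M + 1`. A part consists of an `s` by `s` grid of convex polygons with `M`
vertices, all moving in direction `(0,1)`, and of point probes far to the left, moving in the `M`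
directions `(1, -2 V i)`. The `i`-th supporting value of each polygon can be tuned by an integer
label below `V`, independently for all polygons and all `i`, and the order of the part reads off
all the labels. All `V ^ (M s^2)` labelled parts are put into one family, far apart.

Segment side. In a segment model all parts use the same `m` directions. The order of a part is
determined by the directions of its members, by the signs of the cross products of differences
of endpoints with the `m` directions, and by one height function of the front relation in one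
fixed direction (this relation is acyclic for disjoint segments). By the Sauer-Shelah lemma there
are too few such codes.
-/

namespace Pool.Agent.Results.MP_461429_co.SegNotEnough

/-! ## Definitions used in the statement -/

/-- Figure `a` blocks figure `b`: some point of `a` is reached from a point of `b` by moving
in the direction of motion of `b`. -/
def Blocks {ι : Type} (F : ι → Set (ℝ × ℝ)) (d : ι → ℝ × ℝ) (a b : ι) : Prop :=
  a ≠ b ∧ ∃ p ∈ F b, ∃ q ∈ F a, ∃ t : ℝ, 0 < t ∧ q = p + t • d b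

/-- The blocking order: the transitive closure of the blocking relation. -/
def BlockingOrder {ι : Type} (F : ι → Set (ℝ × ℝ)) (d : ι → ℝ × ℝ) (a b : ι) : Prop :=
  Relation.TransGen (Blocks F d) a b

/-- Two vectors have the same direction: they are positive multiples of each other. -/
def SameDirection (u w : ℝ × ℝ) : Prop := ∃ c : ℝ, 0 < c ∧ u = c • w

/-- The vectors `d i` have exactly `m` distinct directions, listed by `v`. -/
def HasDirections {ι : Type} (m : ℕ) (d : ι → ℝ × ℝ) : Prop :=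
  ∃ v : Fin m → ℝ × ℝ, (∀ k l, SameDirection (v k) (v l) → k = l) ∧
    (∀ i, ∃ k, SameDirection (d i) (v k)) ∧ (∀ k, ∃ i, SameDirection (d i) (v k))

/-- A finite family of pairwise disjoint nonempty compact convex figures with nonzero directions
of motion, with exactly `m` distinct directions and without blocking cycles. -/
structure BlockingFamily (m : ℕ) (ι : Type) (F : ι → Set (ℝ × ℝ)) (d : ι → ℝ × ℝ) : Prop where
  finite : Finite ι
  nonempty : ∀ i, (F i).Nonempty
  compact : ∀ i, IsCompact (F i)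
  convex : ∀ i, Convex ℝ (F i)
  disjoint : ∀ i j, i ≠ j → Disjoint (F i) (F j)
  dir_ne : ∀ i, d i ≠ 0
  acyclic : ∀ i, ¬ BlockingOrder F d i i
  directions : HasDirections m d

/-! ## Geometry of segments -/

/-- planar cross product -/
def cr (u w : ℝ × ℝ) : ℝ := u.1 * w.2 - u.2 * w.1

/-- `Y` is ahead of `X` in direction `v`. -/
def Ahead (v : ℝ × ℝ) (X Y : Set (ℝ × ℝ)) : Prop :=
  ∃ p ∈ X, ∃ q ∈ Y, ∃ t : ℝ, 0 < t ∧ q = p + t • v

theorem par_of_cr {v x y : ℝ × ℝ} (hv : v ≠ 0) (h : cr (y - x) v = 0) :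
    ∃ t : ℝ, y = x + t • v := by
  obtain ⟨v1, v2⟩ := v
  obtain ⟨x1, x2⟩ := x
  obtain ⟨y1, y2⟩ := y
  simp only [cr, Prod.fst_sub, Prod.snd_sub] at h
  by_cases h1 : v1 = 0
  · have h2 : v2 ≠ 0 := by
      rintro rfl
      exact hv (by simp [h1])
    refine ⟨(y2 - x2) / v2, ?_⟩
    subst h1
    have : (y1 - x1) * v2 = 0 := by linarith
    have h3 : y1 - x1 = 0 := by
      rcases mul_eq_zero.1 this with h | h
      · exact h
      · exact absurd h h2
    ext
    · simp; linarith
    · simp; field_simp; ring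
  · refine ⟨(y1 - x1) / v1, ?_⟩
    ext
    · simp; field_simp; ring
    · simp
      field_simp
      linarith

theorem cr_add_smul (x v w : ℝ × ℝ) (t : ℝ) : cr (x + t • v) w = cr x w + t * cr v w := by
  simp only [cr, Prod.fst_add, Prod.snd_add, Prod.smul_fst, Prod.smul_snd, smul_eq_mul]; ring

theorem cr_self (v : ℝ × ℝ) : cr v v = 0 := by simp only [cr]; ring

theorem cr_sub (x y w : ℝ × ℝ) : cr (x - y) w = cr x w - cr y w := by
  simp only [cr, Prod.fst_sub, Prod.snd_sub]; ring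

/-- consistency of the ahead relation for two disjoint convex sets -/
theorem consist {X Y : Set (ℝ × ℝ)} (hX : Convex ℝ X) (hY : Convex ℝ Y) (hd : Disjoint X Y)
    {v p q p' q' : ℝ × ℝ} {t t' : ℝ} (hp : p ∈ X) (hq : q ∈ Y) (hp' : p' ∈ X) (hq' : q' ∈ Y)
    (h : q = p + t • v) (h' : q' = p' + t' • v) (ht : 0 < t) : 0 < t' := by
  by_contra hn
  push Not at hn
  have hpos : 0 < t - t' := by linarith
  have ha : 0 ≤ (-t') / (t - t') := div_nonneg (by linarith) hpos.le
  have hb : 0 ≤ t / (t - t') := div_nonneg ht.le hpos.le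
  have hab : (-t') / (t - t') + t / (t - t') = 1 := by field_simp; ring
  have h1 := hX hp hp' ha hb hab
  have h2 := hY hq hq' ha hb hab
  have h3 : ((-t') / (t - t')) • q + (t / (t - t')) • q'
      = ((-t') / (t - t')) • p + (t / (t - t')) • p' := by
    rw [h, h']
    ext
    · simp; field_simp; ring
    · simp; field_simp; ring
  rw [h3] at h2
  exact Set.disjoint_left.1 hd h1 h2

/-- intermediate value on a convex set for `cr · v` -/
theorem ivt {X : Set (ℝ × ℝ)} (hX : Convex ℝ X) {v a b : ℝ × ℝ} {δ : ℝ} (ha : a ∈ X) (hb : b ∈ X)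
    (h1 : cr a v ≤ δ) (h2 : δ ≤ cr b v) : ∃ x ∈ X, cr x v = δ := by
  by_cases h : cr a v = cr b v
  · exact ⟨a, ha, by linarith⟩
  · have hpos : 0 < cr b v - cr a v := by
      rcases lt_or_ge (cr a v) (cr b v) with h3 | h3
      · linarith
      · exact absurd (le_antisymm (by linarith) h3) h
    refine ⟨((cr b v - δ) / (cr b v - cr a v)) • a + ((δ - cr a v) / (cr b v - cr a v)) • b,
      hX ha hb (div_nonneg (by linarith) hpos.le) (div_nonneg (by linarith) hpos.le)
      (by field_simp; ring), ?_⟩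
    have e : ∀ s r : ℝ, cr (s • a + r • b) v = s * cr a v + r * cr b v := by
      intro s r
      simp only [cr, Prod.fst_add, Prod.snd_add, Prod.smul_fst, Prod.smul_snd, smul_eq_mul]; ring
    rw [e]
    field_simp
    ring

theorem cr_comb (a b v : ℝ × ℝ) (s r : ℝ) : cr (s • a + r • b) v = s * cr a v + r * cr b v := by
  simp only [cr, Prod.fst_add, Prod.snd_add, Prod.smul_fst, Prod.smul_snd, smul_eq_mul]; ring

/-- the line through `x` in direction `v` meets `[P,Q]` iff the signs allow it -/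
theorem meets_iff {v x P Q : ℝ × ℝ} (hv : v ≠ 0) :
    (∃ y ∈ segment ℝ P Q, ∃ t : ℝ, y = x + t • v) ↔
      (¬ (0 < cr (P - x) v ∧ 0 < cr (Q - x) v) ∧ ¬ (cr (P - x) v < 0 ∧ cr (Q - x) v < 0)) := by
  constructor
  · rintro ⟨y, hy, t, rfl⟩
    obtain ⟨a, b, ha, hb, hab, hy⟩ := hy
    have h1 : a * cr P v + b * cr Q v = cr x v := by
      rw [← cr_comb, hy, cr_add_smul, cr_self]; ring
    rw [cr_sub, cr_sub]
    constructor
    · rintro ⟨h2, h3⟩
      have : a * (cr P v - cr x v) + b * (cr Q v - cr x v) = 0 := by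
        have : a * (cr P v - cr x v) + b * (cr Q v - cr x v)
          = (a * cr P v + b * cr Q v) - (a + b) * cr x v := by ring
        rw [this, h1, hab]; ring
      rcases lt_or_eq_of_le ha with h4 | h4
      · have := mul_pos h4 h2
        have := mul_nonneg hb h3.le
        linarith
      · have hb1 : b = 1 := by linarith
        rw [← h4, hb1] at this
        linarith
    · rintro ⟨h2, h3⟩
      have : a * (cr P v - cr x v) + b * (cr Q v - cr x v) = 0 := by
        have : a * (cr P v - cr x v) + b * (cr Q v - cr x v)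
          = (a * cr P v + b * cr Q v) - (a + b) * cr x v := by ring
        rw [this, h1, hab]; ring
      rcases lt_or_eq_of_le ha with h4 | h4
      · have := mul_neg_of_pos_of_neg h4 h2
        have := mul_nonpos_of_nonneg_of_nonpos hb h3.le
        linarith
      · have hb1 : b = 1 := by linarith
        rw [← h4, hb1] at this
        linarith
  · rintro ⟨h1, h2⟩
    rw [cr_sub, cr_sub] at h1 h2
    have key : ∃ y ∈ segment ℝ P Q, cr y v = cr x v := by
      rcases le_total (cr P v) (cr x v) with h3 | h3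
      · rcases le_total (cr x v) (cr Q v) with h4 | h4
        · exact ivt (convex_segment _ _) (left_mem_segment _ _ _) (right_mem_segment _ _ _) h3 h4
        · rcases lt_or_eq_of_le h3 with h5 | h5
          · rcases lt_or_eq_of_le h4 with h6 | h6
            · exact absurd ⟨by linarith, by linarith⟩ h2
            · exact ⟨Q, right_mem_segment _ _ _, h6⟩
          · exact ⟨P, left_mem_segment _ _ _, h5⟩
      · rcases le_total (cr x v) (cr Q v) with h4 | h4
        · rcases lt_or_eq_of_le h3 with h5 | h5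
          · rcases lt_or_eq_of_le h4 with h6 | h6
            · exact absurd ⟨by linarith, by linarith⟩ h1
            · exact ⟨Q, right_mem_segment _ _ _, h6.symm⟩
          · exact ⟨P, left_mem_segment _ _ _, h5.symm⟩
        · exact ivt (convex_segment _ _) (right_mem_segment _ _ _) (left_mem_segment _ _ _) h4 h3
    obtain ⟨y, hy, h3⟩ := key
    obtain ⟨t, ht⟩ := par_of_cr (v := v) (x := x) (y := y) hv (by rw [cr_sub]; linarith)
    exact ⟨y, hy, t, ht⟩

/-- the line through `x` in direction `v` meets `c` -/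
def Meets (v x : ℝ × ℝ) (c : Set (ℝ × ℝ)) : Prop := ∃ y ∈ c, ∃ t : ℝ, y = x + t • v

theorem seg_lt {v p P Q : ℝ × ℝ} {c : ℝ} (hp : p ∈ segment ℝ P Q) (h1 : cr P v < c)
    (h2 : cr Q v < c) : cr p v < c := by
  obtain ⟨a, b, ha, hb, hab, rfl⟩ := hp
  rw [cr_comb]
  have hc : c = a * c + b * c := by rw [← add_mul, hab, one_mul]
  rcases lt_or_eq_of_le ha with h4 | h4
  · have := mul_lt_mul_of_pos_left h1 h4
    have := mul_le_mul_of_nonneg_left h2.le hb
    linarith
  · have hb1 : b = 1 := by linarith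
    rw [← h4, hb1]
    linarith

theorem seg_gt {v p P Q : ℝ × ℝ} {c : ℝ} (hp : p ∈ segment ℝ P Q) (h1 : c < cr P v)
    (h2 : c < cr Q v) : c < cr p v := by
  obtain ⟨a, b, ha, hb, hab, rfl⟩ := hp
  rw [cr_comb]
  have hc : c = a * c + b * c := by rw [← add_mul, hab, one_mul]
  rcases lt_or_eq_of_le ha with h4 | h4
  · have := mul_lt_mul_of_pos_left h1 h4
    have := mul_le_mul_of_nonneg_left h2.le hb
    linarith
  · have hb1 : b = 1 := by linarith
    rw [← h4, hb1]
    linarith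

/-- uniqueness of the side on which a point sees a convex set that does not contain it -/
theorem point_consist {c : Set (ℝ × ℝ)} (hc : Convex ℝ c) {x v : ℝ × ℝ} (hx : x ∉ c)
    {y y' : ℝ × ℝ} {t t' : ℝ} (hy : y ∈ c) (hy' : y' ∈ c) (h : y = x + t • v)
    (h' : y' = x + t' • v) (ht : 0 < t) : 0 < t' :=
  consist (convex_singleton x) hc (Set.disjoint_singleton_left.2 hx) rfl hy rfl hy' h h' ht

theorem ahead_point_iff {c : Set (ℝ × ℝ)} {x v : ℝ × ℝ} :
    Ahead v {x} c ↔ ∃ y ∈ c, ∃ t : ℝ, 0 < t ∧ y = x + t • v := by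
  constructor
  · rintro ⟨p, hp, q, hq, t, ht, h⟩
    rw [Set.mem_singleton_iff] at hp
    subst hp
    exact ⟨q, hq, t, ht, h⟩
  · rintro ⟨q, hq, t, ht, h⟩
    exact ⟨x, rfl, q, hq, t, ht, h⟩

theorem decomp {v Pb Qb Pa Qa : ℝ × ℝ} (hv : v ≠ 0)
    (hd : Disjoint (segment ℝ Pb Qb) (segment ℝ Pa Qa)) :
    Ahead v (segment ℝ Pb Qb) (segment ℝ Pa Qa) ↔
      (Ahead v {Pb} (segment ℝ Pa Qa) ∨ Ahead v {Qb} (segment ℝ Pa Qa) ∨
        Ahead v (segment ℝ Pb Qb) {Pa}) := by
  constructor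
  · rintro ⟨p, hp, q, hq, t, ht, h⟩
    have hpq : cr p v = cr q v := by rw [h, cr_add_smul, cr_self]; ring
    have key : Meets v Pb (segment ℝ Pa Qa) ∨ Meets v Qb (segment ℝ Pa Qa) ∨
        Meets v Pa (segment ℝ Pb Qb) := by
      unfold Meets
      rw [meets_iff hv, meets_iff hv, meets_iff hv]
      simp only [cr_sub]
      have h1 := fun c => seg_lt (c := c) (v := v) hp
      have h2 := fun c => seg_gt (c := c) (v := v) hp
      have h3 := fun c => seg_lt (c := c) (v := v) hq
      have h4 := fun c => seg_gt (c := c) (v := v) hq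
      by_contra hcon
      simp only [not_or, not_and_or, not_not] at hcon
      obtain ⟨ha, hb, hc⟩ := hcon
      rcases ha with ⟨a1, a2⟩ | ⟨a1, a2⟩ <;> rcases hb with ⟨b1, b2⟩ | ⟨b1, b2⟩
      · have e1 := h4 (max (cr Pb v) (cr Qb v)) (max_lt (by linarith) (by linarith))
          (max_lt (by linarith) (by linarith))
        rcases le_total (cr Pb v) (cr Qb v) with h5 | h5
        · have := h1 (cr q v) (lt_of_le_of_lt (le_max_left _ _) e1)
            (lt_of_le_of_lt (le_max_right _ _) e1)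
          linarith
        · have := h1 (cr q v) (lt_of_le_of_lt (le_max_left _ _) e1)
            (lt_of_le_of_lt (le_max_right _ _) e1)
          linarith
      · rcases hc with ⟨c1, c2⟩ | ⟨c1, c2⟩ <;> linarith
      · rcases hc with ⟨c1, c2⟩ | ⟨c1, c2⟩ <;> linarith
      · have e1 := h3 (min (cr Pb v) (cr Qb v)) (lt_min (by linarith) (by linarith))
          (lt_min (by linarith) (by linarith))
        have := h2 (cr q v) (lt_of_lt_of_le e1 (min_le_left _ _))
            (lt_of_lt_of_le e1 (min_le_right _ _))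
        linarith
    rcases key with ⟨y, hy, s, hs⟩ | ⟨y, hy, s, hs⟩ | ⟨y, hy, s, hs⟩
    · left
      have := consist (convex_segment _ _) (convex_segment _ _) hd hp hq
        (left_mem_segment ℝ Pb Qb) hy h hs ht
      exact ⟨Pb, rfl, y, hy, s, this, hs⟩
    · right; left
      have := consist (convex_segment _ _) (convex_segment _ _) hd hp hq
        (right_mem_segment ℝ Pb Qb) hy h hs ht
      exact ⟨Qb, rfl, y, hy, s, this, hs⟩
    · right; right
      have hs' : Pa = y + (-s) • v := by rw [hs]; simp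
      have := consist (convex_segment _ _) (convex_segment _ _) hd hp hq
        hy (left_mem_segment ℝ Pa Qa) h hs' ht
      exact ⟨y, hy, Pa, rfl, -s, this, hs'⟩
  · rintro (⟨p, hp, q, hq, t, ht, h⟩ | ⟨p, hp, q, hq, t, ht, h⟩ | ⟨p, hp, q, hq, t, ht, h⟩)
    · rw [Set.mem_singleton_iff] at hp; subst hp
      exact ⟨p, left_mem_segment _ _ _, q, hq, t, ht, h⟩
    · rw [Set.mem_singleton_iff] at hp; subst hp
      exact ⟨p, right_mem_segment _ _ _, q, hq, t, ht, h⟩
    · rw [Set.mem_singleton_iff] at hq; subst hq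
      exact ⟨p, hp, q, left_mem_segment _ _ _, t, ht, h⟩

def SameSign (a b : ℝ) : Prop := (0 < a ↔ 0 < b) ∧ (a < 0 ↔ b < 0)

theorem SameSign.symm {a b : ℝ} (h : SameSign a b) : SameSign b a := ⟨h.1.symm, h.2.symm⟩

theorem sign_diff {A B A' B' : ℝ} (h1 : SameSign A A') (h2 : SameSign B B')
    (h3 : ¬ (0 < A ∧ 0 < B)) (h4 : ¬ (A < 0 ∧ B < 0)) (h5 : A - B ≠ 0) :
    0 < (A - B) * (A' - B') := by
  rcases lt_trichotomy A 0 with hA | hA | hA
  · have hA' := h1.2.1 hA
    have hB : 0 ≤ B := not_lt.1 fun hb => h4 ⟨hA, hb⟩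
    have hB' : 0 ≤ B' := not_lt.1 fun hb => not_lt.2 hB (h2.2.2 hb)
    exact mul_pos_of_neg_of_neg (by linarith) (by linarith)
  · subst hA
    have hA' : A' = 0 := by
      apply le_antisymm
      · exact not_lt.1 fun h => lt_irrefl _ (h1.1.2 h)
      · exact not_lt.1 fun h => lt_irrefl _ (h1.2.2 h)
    subst hA'
    rcases lt_trichotomy B 0 with hB | hB | hB
    · have := h2.2.1 hB
      exact mul_pos (by linarith) (by linarith)
    · subst hB; simp at h5
    · have := h2.1.1 hB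
      exact mul_pos_of_neg_of_neg (by linarith) (by linarith)
  · have hA' := h1.1.1 hA
    have hB : B ≤ 0 := not_lt.1 fun hb => h3 ⟨hA, hb⟩
    have hB' : B' ≤ 0 := not_lt.1 fun hb => not_lt.2 hB (h2.1.2 hb)
    exact mul_pos (by linarith) (by linarith)

theorem cr_seg {P Q y : ℝ × ℝ} (hy : y ∈ segment ℝ P Q) : cr (y - P) (Q - P) = 0 := by
  obtain ⟨a, b, ha, hb, hab, rfl⟩ := hy
  have : a = 1 - b := by linarith
  subst this
  simp only [cr, Prod.fst_sub, Prod.snd_sub, Prod.fst_add, Prod.snd_add, Prod.smul_fst,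
    Prod.smul_snd, smul_eq_mul]
  ring

theorem hit_val {x v P Q : ℝ × ℝ} {t : ℝ} (hy : x + t • v ∈ segment ℝ P Q) :
    t * (cr (P - x) v - cr (Q - x) v) = cr (P - x) (Q - P) := by
  have := cr_seg hy
  simp only [cr, Prod.fst_sub, Prod.snd_sub, Prod.fst_add, Prod.snd_add, Prod.smul_fst,
    Prod.smul_snd, smul_eq_mul] at this ⊢
  linear_combination this

theorem hit_val_ne {x v1 v2 P Q : ℝ × ℝ} {t1 t2 : ℝ} (hx : x ∉ segment ℝ P Q)
    (hn : cr v1 v2 ≠ 0)
    (hy1 : x + t1 • v1 ∈ segment ℝ P Q) (hy2 : x + t2 • v2 ∈ segment ℝ P Q) :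
    cr (P - x) (Q - P) ≠ 0 := by
  intro hs
  have e1 := hit_val hy1
  have e2 := hit_val hy2
  rw [hs] at e1 e2
  have ht1 : t1 ≠ 0 := by rintro rfl; exact hx (by simpa using hy1)
  have ht2 : t2 ≠ 0 := by rintro rfl; exact hx (by simpa using hy2)
  have f1 := (mul_eq_zero.1 e1).resolve_left ht1
  have f2 := (mul_eq_zero.1 e2).resolve_left ht2
  obtain ⟨x1, x2⟩ := x
  obtain ⟨P1, P2⟩ := P
  obtain ⟨Q1, Q2⟩ := Q
  obtain ⟨a1, a2⟩ := v1
  obtain ⟨b1, b2⟩ := v2
  simp only [cr, Prod.fst_sub, Prod.snd_sub] at f1 f2 hn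
  have g1 : (Q1 - P1) * (a1 * b2 - a2 * b1) = 0 := by linear_combination b1 * f1 - a1 * f2
  have g2 : (Q2 - P2) * (a1 * b2 - a2 * b1) = 0 := by linear_combination b2 * f1 - a2 * f2
  have g1 := (mul_eq_zero.1 g1).resolve_right hn
  have g2 := (mul_eq_zero.1 g2).resolve_right hn
  have hQ1 : Q1 = P1 := by linarith
  have hQ2 : Q2 = P2 := by linarith
  subst hQ1 hQ2
  rw [segment_same, Set.mem_singleton_iff] at hy1 hy2
  have := hy1.trans hy2.symm
  simp only [Prod.smul_mk, smul_eq_mul, Prod.mk_add_mk, Prod.mk.injEq] at this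
  obtain ⟨k1, k2⟩ := this
  apply hn
  have : t1 * (a1 * b2 - a2 * b1) = 0 := by linear_combination b2 * k1 - b1 * k2
  exact (mul_eq_zero.1 this).resolve_left ht1

/-- The comparison lemma. -/
theorem compare {m : ℕ} {v : Fin m → ℝ × ℝ} (hv : ∀ i, v i ≠ 0)
    (hnp : ∃ i j, cr (v i) (v j) ≠ 0) (i0 : Fin m) {x P Q x' P' Q' : ℝ × ℝ}
    (hx : x ∉ segment ℝ P Q) (hx' : x' ∉ segment ℝ P' Q')
    (h1 : ∀ i, SameSign (cr (P - x) (v i)) (cr (P' - x') (v i)))
    (h2 : ∀ i, SameSign (cr (Q - x) (v i)) (cr (Q' - x') (v i)))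
    (href : Ahead (v i0) {x} (segment ℝ P Q) ↔ Ahead (v i0) {x'} (segment ℝ P' Q'))
    (j : Fin m) (h : Ahead (v j) {x} (segment ℝ P Q)) :
    Ahead (v j) {x'} (segment ℝ P' Q') := by
  rw [ahead_point_iff] at h
  obtain ⟨y, hy, t, ht, hyt⟩ := h
  have trans : ∀ i, Meets (v i) x (segment ℝ P Q) → Meets (v i) x' (segment ℝ P' Q') := by
    intro i hi
    unfold Meets at hi ⊢
    rw [meets_iff (hv i)] at hi ⊢
    rw [← (h1 i).1, ← (h1 i).2, ← (h2 i).1, ← (h2 i).2]
    exact hi
  obtain ⟨y', hy', t', hyt'⟩ := trans j ⟨y, hy, t, hyt⟩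
  rw [ahead_point_iff]
  refine ⟨y', hy', t', ?_, hyt'⟩
  by_cases hA : ∃ i, (0 < cr (P - x) (v i) ∧ 0 < cr (Q - x) (v i)) ∨
      (cr (P - x) (v i) < 0 ∧ cr (Q - x) (v i) < 0)
  · obtain ⟨i, ⟨hi1, hi2⟩ | ⟨hi1, hi2⟩⟩ := hA
    · have hi1' := (h1 i).1.1 hi1
      have hi2' := (h2 i).1.1 hi2
      rw [cr_sub] at hi1 hi2 hi1' hi2'
      have k1 := seg_gt (v := v i) (c := cr x (v i)) hy (by linarith) (by linarith)
      have k2 := seg_gt (v := v i) (c := cr x' (v i)) hy' (by linarith) (by linarith)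
      rw [hyt, cr_add_smul] at k1
      rw [hyt', cr_add_smul] at k2
      have k3 : 0 < t * cr (v j) (v i) := by linarith
      have k4 : 0 < t' * cr (v j) (v i) := by linarith
      have k5 : 0 < cr (v j) (v i) := (mul_pos_iff_of_pos_left ht).1 k3
      exact (mul_pos_iff_of_pos_right k5).1 k4
    · have hi1' := (h1 i).2.1 hi1
      have hi2' := (h2 i).2.1 hi2
      rw [cr_sub] at hi1 hi2 hi1' hi2'
      have k1 := seg_lt (v := v i) (c := cr x (v i)) hy (by linarith) (by linarith)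
      have k2 := seg_lt (v := v i) (c := cr x' (v i)) hy' (by linarith) (by linarith)
      rw [hyt, cr_add_smul] at k1
      rw [hyt', cr_add_smul] at k2
      have k3 : 0 < t * (-cr (v j) (v i)) := by linarith
      have k4 : 0 < t' * (-cr (v j) (v i)) := by linarith
      have k5 : 0 < -cr (v j) (v i) := (mul_pos_iff_of_pos_left ht).1 k3
      exact (mul_pos_iff_of_pos_right k5).1 k4
  · push Not at hA
    have mt : ∀ i, Meets (v i) x (segment ℝ P Q) := by
      intro i
      unfold Meets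
      rw [meets_iff (hv i)]
      refine ⟨fun hh => ?_, fun hh => ?_⟩
      · exact absurd ((hA i).1 hh.1) (not_le.2 hh.2)
      · exact absurd ((hA i).2 hh.1) (not_le.2 hh.2)
    have mt' := fun i => trans i (mt i)
    obtain ⟨i1, i2, hn⟩ := hnp
    obtain ⟨y1, hy1, t1, rfl⟩ := mt i1
    obtain ⟨y2, hy2, t2, rfl⟩ := mt i2
    obtain ⟨y1', hy1', t1', rfl⟩ := mt' i1
    obtain ⟨y2', hy2', t2', rfl⟩ := mt' i2
    have hs := hit_val_ne hx hn hy1 hy2
    have hs' := hit_val_ne hx' hn hy1' hy2'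
    obtain ⟨y0, hy0, t0, rfl⟩ := mt i0
    obtain ⟨y0', hy0', t0', rfl⟩ := mt' i0
    subst hyt hyt'
    have e1 := hit_val hy
    have e1' := hit_val hy'
    have e0 := hit_val hy0
    have e0' := hit_val hy0'
    have ht0 : t0 ≠ 0 := by rintro rfl; exact hx (by simpa using hy0)
    have ht0' : t0' ≠ 0 := by rintro rfl; exact hx' (by simpa using hy0')
    have ht00 : 0 < t0 * t0' := by
      rcases lt_or_gt_of_ne ht0 with h3 | h3
      · rcases lt_or_gt_of_ne ht0' with h4 | h4
        · exact mul_pos_of_neg_of_neg h3 h4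
        · exfalso
          have := href.2 (ahead_point_iff.2 ⟨_, hy0', t0', h4, rfl⟩)
          rw [ahead_point_iff] at this
          obtain ⟨z, hz, s, hs, hzs⟩ := this
          have := point_consist (convex_segment P Q) hx hz hy0 hzs rfl hs
          linarith
      · rcases lt_or_gt_of_ne ht0' with h4 | h4
        · exfalso
          have := href.1 (ahead_point_iff.2 ⟨_, hy0, t0, h3, rfl⟩)
          rw [ahead_point_iff] at this
          obtain ⟨z, hz, s, hs, hzs⟩ := this
          have := point_consist (convex_segment P' Q') hx' hz hy0' hzs rfl hs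
          linarith
        · exact mul_pos h3 h4
    have nj : cr (P - x) (v j) - cr (Q - x) (v j) ≠ 0 := by
      intro h0; rw [h0, mul_zero] at e1; exact hs e1.symm
    have n0 : cr (P - x) (v i0) - cr (Q - x) (v i0) ≠ 0 := by
      intro h0; rw [h0, mul_zero] at e0; exact hs e0.symm
    have dj := sign_diff (h1 j) (h2 j) (fun hh => absurd ((hA j).1 hh.1) (not_le.2 hh.2))
      (fun hh => absurd ((hA j).2 hh.1) (not_le.2 hh.2)) nj
    have d0 := sign_diff (h1 i0) (h2 i0) (fun hh => absurd ((hA i0).1 hh.1) (not_le.2 hh.2))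
      (fun hh => absurd ((hA i0).2 hh.1) (not_le.2 hh.2)) n0
    have prod : (t * t') * ((cr (P - x) (v j) - cr (Q - x) (v j)) *
        (cr (P' - x') (v j) - cr (Q' - x') (v j))) =
        (t0 * t0') * ((cr (P - x) (v i0) - cr (Q - x) (v i0)) *
        (cr (P' - x') (v i0) - cr (Q' - x') (v i0))) := by
      calc _ = (t * (cr (P - x) (v j) - cr (Q - x) (v j))) *
            (t' * (cr (P' - x') (v j) - cr (Q' - x') (v j))) := by ring
        _ = (t0 * (cr (P - x) (v i0) - cr (Q - x) (v i0))) *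
            (t0' * (cr (P' - x') (v i0) - cr (Q' - x') (v i0))) := by rw [e1, e1', e0, e0']
        _ = _ := by ring
    have pos : 0 < (t * t') * ((cr (P - x) (v j) - cr (Q - x) (v j)) *
        (cr (P' - x') (v j) - cr (Q' - x') (v j))) := by
      rw [prod]; exact mul_pos ht00 d0
    have := (mul_pos_iff_of_pos_right dj).1 pos
    exact (mul_pos_iff_of_pos_left ht).1 this

/-- acyclicity from the shortcut property at elements with the smallest value of `f` -/
theorem acyclic_of_shortcut {X : Type} [Finite X] (r : X → X → Prop) (f : X → ℝ)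
    (h1 : ∀ x, ¬ r x x)
    (h2 : ∀ p z s, f z ≤ f p → f z ≤ f s → r p z → r z s → r p s) (x : X) :
    ¬ Relation.TransGen r x x := by
  classical
  have := Fintype.ofFinite X
  have main : ∀ S : Finset X, ∀ x, ¬ Relation.TransGen (fun a b => a ∈ S ∧ b ∈ S ∧ r a b) x x := by
    intro S
    induction S using Finset.induction_on_min_value f with
    | empty =>
      intro x hx
      obtain ⟨_, hb, _⟩ := Relation.TransGen.head'_iff.1 hx
      simp at hb
    | insert z S hz hmin ih =>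
      have claim : ∀ x, x ∈ S → ∀ y,
          Relation.TransGen (fun a b => a ∈ insert z S ∧ b ∈ insert z S ∧ r a b) x y →
          (y ∈ S → Relation.TransGen (fun a b => a ∈ S ∧ b ∈ S ∧ r a b) x y) ∧
          (y = z → ∃ p ∈ S, r p z ∧
            Relation.ReflTransGen (fun a b => a ∈ S ∧ b ∈ S ∧ r a b) x p) := by
        intro x hx y hxy
        induction hxy with
        | single hb =>
          refine ⟨fun hy => Relation.TransGen.single ⟨hx, hy, hb.2.2⟩, ?_⟩
          rintro rfl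
          exact ⟨x, hx, hb.2.2, Relation.ReflTransGen.refl⟩
        | tail hab hbc ih2 =>
          rename_i b c
          rcases Finset.mem_insert.1 hbc.1 with hb | hb
          · subst hb
            obtain ⟨p, hp, hpz, hxp⟩ := ih2.2 rfl
            refine ⟨fun hy => ?_, fun hy => ?_⟩
            · have := h2 p b c (hmin p hp) (hmin c hy) hpz hbc.2.2
              exact Relation.TransGen.tail' hxp ⟨hp, hy, this⟩
            · subst hy
              exact absurd hbc.2.2 (h1 _)
          · have h3 := ih2.1 hb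
            refine ⟨fun hy => h3.tail ⟨hb, hy, hbc.2.2⟩, ?_⟩
            rintro rfl
            exact ⟨b, hb, hbc.2.2, h3.to_reflTransGen⟩
      intro x hx
      have hxS : x ∈ insert z S := by
        obtain ⟨_, hb, _⟩ := Relation.TransGen.head'_iff.1 hx
        exact hb.1
      rcases Finset.mem_insert.1 hxS with h | h
      · subst h
        obtain ⟨s, hb, hs⟩ := Relation.TransGen.head'_iff.1 hx
        have hsx : s ≠ x := by rintro rfl; exact h1 _ hb.2.2
        have hsS : s ∈ S := (Finset.mem_insert.1 hb.2.1).resolve_left hsx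
        have hss := Relation.TransGen.tail' hs hb
        exact ih s ((claim s hsS s hss).1 hsS)
      · exact ih x ((claim x h x hx).1 h)
  intro hx
  apply main Finset.univ x
  have hle : r ≤ (fun a b => a ∈ Finset.univ ∧ b ∈ Finset.univ ∧ r a b) :=
    fun a b hab => ⟨Finset.mem_univ _, Finset.mem_univ _, hab⟩
  exact Relation.TransGen.mono hle x x hx

/-- the front relation in direction `v` of a family of segments -/
def Front {X : Type} (v : ℝ × ℝ) (P Q : X → ℝ × ℝ) (x y : X) : Prop :=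
  x ≠ y ∧ Ahead v (segment ℝ (P x) (Q x)) (segment ℝ (P y) (Q y))

theorem seg_le_max {v p P Q : ℝ × ℝ} (hp : p ∈ segment ℝ P Q) :
    cr p v ≤ max (cr P v) (cr Q v) := by
  by_contra h
  push Not at h
  exact lt_irrefl _ (seg_lt hp (lt_of_le_of_lt (le_max_left _ _) h)
    (lt_of_le_of_lt (le_max_right _ _) h))

theorem seg_max {v P Q : ℝ × ℝ} : ∃ p ∈ segment ℝ P Q, cr p v = max (cr P v) (cr Q v) := by
  rcases le_total (cr P v) (cr Q v) with h | h
  · exact ⟨Q, right_mem_segment _ _ _, by rw [max_eq_right h]⟩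
  · exact ⟨P, left_mem_segment _ _ _, by rw [max_eq_left h]⟩

theorem front_acyclic {X : Type} [Finite X] {v : ℝ × ℝ} (hv : v ≠ 0) {P Q : X → ℝ × ℝ}
    (hd : ∀ x y, x ≠ y → Disjoint (segment ℝ (P x) (Q x)) (segment ℝ (P y) (Q y))) (x : X) :
    ¬ Relation.TransGen (Front v P Q) x x := by
  apply acyclic_of_shortcut (Front v P Q) (fun x => max (cr (P x) v) (cr (Q x) v))
  · intro x h
    exact h.1 rfl
  · intro p z s hp hs hpz hzs
    obtain ⟨hpz0, a, ha, b, hb, t, ht, hab⟩ := hpz
    obtain ⟨hzs0, a', ha', b', hb', t', ht', hab'⟩ := hzs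
    obtain ⟨z0, hz0, hz1⟩ := seg_max (v := v) (P := P z) (Q := Q z)
    obtain ⟨p0, hp0, hp1⟩ := seg_max (v := v) (P := P p) (Q := Q p)
    obtain ⟨s0, hs0, hs1⟩ := seg_max (v := v) (P := P s) (Q := Q s)
    have e1 : cr a v = cr b v := by rw [hab, cr_add_smul, cr_self]; ring
    have e2 : cr a' v = cr b' v := by rw [hab', cr_add_smul, cr_self]; ring
    have l1 := seg_le_max (v := v) hb
    have l2 := seg_le_max (v := v) ha'
    obtain ⟨p2, hp2, hp3⟩ := ivt (v := v) (δ := cr z0 v) (convex_segment (P p) (Q p)) ha hp0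
      (by linarith) (by rw [hz1, hp1]; exact hp)
    obtain ⟨s2, hs2, hs3⟩ := ivt (v := v) (δ := cr z0 v) (convex_segment (P s) (Q s)) hb' hs0
      (by linarith) (by rw [hz1, hs1]; exact hs)
    obtain ⟨t1, ht1⟩ := par_of_cr (v := v) (x := p2) (y := z0) hv (by rw [cr_sub]; linarith)
    obtain ⟨t2, ht2⟩ := par_of_cr (v := v) (x := z0) (y := s2) hv (by rw [cr_sub]; linarith)
    have q1 := consist (convex_segment _ _) (convex_segment _ _) (hd p z hpz0) ha hb hp2 hz0
      hab ht1 ht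
    have q2 := consist (convex_segment _ _) (convex_segment _ _) (hd z s hzs0) ha' hb' hz0 hs2
      hab' ht2 ht'
    refine ⟨?_, p2, hp2, s2, hs2, t1 + t2, by linarith, ?_⟩
    · rintro rfl
      have h3 : b' = a' + t' • v := hab'
      have h4 : a' = b' + (-t') • v := by rw [h3]; simp
      have := consist (convex_segment _ _) (convex_segment _ _) (hd p z hpz0) ha hb hb' ha'
        hab h4 ht
      linarith
    · rw [ht2, ht1, add_smul, add_assoc]

open Classical in
/-- height in the front relation -/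
noncomputable def height {X : Type} [Fintype X] (r : X → X → Prop) (x : X) : ℕ :=
  (Finset.univ.filter fun y => Relation.TransGen r y x).card

theorem height_lt {X : Type} [Fintype X] {r : X → X → Prop}
    (hr : ∀ x, ¬ Relation.TransGen r x x) {x y : X} (h : r x y) : height r x < height r y := by
  classical
  apply Finset.card_lt_card
  rw [Finset.ssubset_iff_of_subset]
  · refine ⟨x, ?_, ?_⟩
    · simpa using Relation.TransGen.single h
    · simpa using hr x
  · intro z hz
    simp only [Finset.mem_filter, Finset.mem_univ, true_and] at hz ⊢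
    exact hz.tail h

theorem height_le {X : Type} [Fintype X] {r : X → X → Prop} (x : X) :
    height r x < Fintype.card X + 1 := by
  classical
  exact Nat.lt_succ_of_le (Finset.card_le_univ _)

/-- endpoints of the segments -/
def ept {X : Type} (P Q : X → ℝ × ℝ) (z : X × Bool) : ℝ × ℝ := if z.2 then Q z.1 else P z.1

theorem ept_mem {X : Type} (P Q : X → ℝ × ℝ) (z : X × Bool) :
    ept P Q z ∈ segment ℝ (P z.1) (Q z.1) := by
  unfold ept
  split_ifs
  · exact right_mem_segment _ _ _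
  · exact left_mem_segment _ _ _

/-- the blocking relation of a family of segments whose directions are `v (κ x)` -/
def SegRel {X : Type} {m : ℕ} (v : Fin m → ℝ × ℝ) (P Q : X → ℝ × ℝ) (κ : X → Fin m)
    (x y : X) : Prop :=
  x ≠ y ∧ Ahead (v (κ y)) (segment ℝ (P y) (Q y)) (segment ℝ (P x) (Q x))

theorem cr_neg_sub (a b w : ℝ × ℝ) : cr (a - b) w = - cr (b - a) w := by
  simp only [cr_sub]; ring

/-- The code of a configuration determines its blocking relation. -/
theorem code_determines {X : Type} [Fintype X] {m : ℕ} {v : Fin m → ℝ × ℝ}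
    (hv : ∀ i, v i ≠ 0) (hnp : ∃ i j, cr (v i) (v j) ≠ 0) (i0 : Fin m)
    {P Q P' Q' : X → ℝ × ℝ} {κ κ' : X → Fin m}
    (hd : ∀ x y, x ≠ y → Disjoint (segment ℝ (P x) (Q x)) (segment ℝ (P y) (Q y)))
    (hd' : ∀ x y, x ≠ y → Disjoint (segment ℝ (P' x) (Q' x)) (segment ℝ (P' y) (Q' y)))
    (hκ : κ = κ')
    (hs : ∀ z w : X × Bool, ∀ i, 0 < cr (ept P Q z - ept P Q w) (v i) ↔
      0 < cr (ept P' Q' z - ept P' Q' w) (v i))
    (hh : ∀ x, height (Front (v i0) P Q) x = height (Front (v i0) P' Q') x)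
    (x y : X) (h : SegRel v P Q κ x y) : SegRel v P' Q' κ' x y := by
  subst hκ
  obtain ⟨hxy, h⟩ := h
  refine ⟨hxy, ?_⟩
  have ss : ∀ z w : X × Bool, ∀ i, SameSign (cr (ept P Q z - ept P Q w) (v i))
      (cr (ept P' Q' z - ept P' Q' w) (v i)) := by
    intro z w i
    refine ⟨hs z w i, ?_⟩
    rw [cr_neg_sub, cr_neg_sub (ept P' Q' z)]
    simpa using hs w z i
  have not_mem : ∀ (P Q : X → ℝ × ℝ)
      (_ : ∀ x y, x ≠ y → Disjoint (segment ℝ (P x) (Q x)) (segment ℝ (P y) (Q y)))
      (z : X × Bool) (a : X), a ≠ z.1 → ept P Q z ∉ segment ℝ (P a) (Q a) := by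
    intro P Q hd z a haz hm
    exact Set.disjoint_left.1 (hd a z.1 haz) hm (ept_mem P Q z)
  have refbit : ∀ (P Q : X → ℝ × ℝ)
      (_ : ∀ x y, x ≠ y → Disjoint (segment ℝ (P x) (Q x)) (segment ℝ (P y) (Q y)))
      (z : X × Bool) (a : X), a ≠ z.1 →
      (Ahead (v i0) {ept P Q z} (segment ℝ (P a) (Q a)) ↔
        (Meets (v i0) (ept P Q z) (segment ℝ (P a) (Q a)) ∧
          height (Front (v i0) P Q) z.1 < height (Front (v i0) P Q) a)) := by
    intro P Q hd z a haz
    have hac := front_acyclic (hv i0) hd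
    constructor
    · intro hA
      rw [ahead_point_iff] at hA
      obtain ⟨y, hy, t, ht, e⟩ := hA
      refine ⟨⟨y, hy, t, e⟩, height_lt hac ⟨haz.symm, _, ept_mem P Q z, y, hy, t, ht, e⟩⟩
    · rintro ⟨⟨y, hy, t, e⟩, hlt⟩
      rw [ahead_point_iff]
      refine ⟨y, hy, t, ?_, e⟩
      by_contra hneg
      rcases lt_or_eq_of_le (not_lt.1 hneg) with h3 | h3
      · have : Front (v i0) P Q a z.1 :=
          ⟨haz, y, hy, _, ept_mem P Q z, -t, by linarith, by rw [e]; simp⟩
        exact absurd (height_lt hac this) (not_lt.2 hlt.le)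
      · subst h3
        simp only [zero_smul, add_zero] at e
        subst e
        exact not_mem P Q hd z a haz hy
  have meetsbit : ∀ (z : X × Bool) (a : X) (i : Fin m),
      (Meets (v i) (ept P Q z) (segment ℝ (P a) (Q a)) ↔
        Meets (v i) (ept P' Q' z) (segment ℝ (P' a) (Q' a))) := by
    intro z a i
    unfold Meets
    rw [meets_iff (hv i), meets_iff (hv i)]
    have h1 := ss (a, false) z i
    have h2 := ss (a, true) z i
    simp only [ept, if_true, Bool.false_eq_true, if_false] at h1 h2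
    simp only [ept]
    rw [h1.1, h1.2, h2.1, h2.2]
  have hitbit : ∀ (z : X × Bool) (a : X) (j : Fin m), a ≠ z.1 →
      (Ahead (v j) {ept P Q z} (segment ℝ (P a) (Q a)) ↔
        Ahead (v j) {ept P' Q' z} (segment ℝ (P' a) (Q' a))) := by
    intro z a j haz
    have h1 := fun i => ss (a, false) z i
    have h2 := fun i => ss (a, true) z i
    simp only [ept, if_true, Bool.false_eq_true, if_false] at h1 h2
    have hr : (Ahead (v i0) {ept P Q z} (segment ℝ (P a) (Q a)) ↔
        Ahead (v i0) {ept P' Q' z} (segment ℝ (P' a) (Q' a))) := by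
      rw [refbit P Q hd z a haz, refbit P' Q' hd' z a haz, meetsbit z a i0, hh, hh]
    constructor
    · exact compare hv hnp i0 (not_mem P Q hd z a haz) (not_mem P' Q' hd' z a haz) h1 h2 hr j
    · exact compare hv hnp i0 (not_mem P' Q' hd' z a haz) (not_mem P Q hd z a haz)
        (fun i => (h1 i).symm) (fun i => (h2 i).symm) hr.symm j
  have e1 : ∀ (P Q : X → ℝ × ℝ) a, ept P Q (a, false) = P a := fun P Q a => by simp [ept]
  have e2 : ∀ (P Q : X → ℝ × ℝ) a, ept P Q (a, true) = Q a := fun P Q a => by simp [ept]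
  rw [decomp (hv _) (hd y x hxy.symm)] at h
  rw [decomp (hv _) (hd' y x hxy.symm)]
  rcases h with h | h | h
  · left
    have := (hitbit (y, false) x (κ y) hxy).1 (by rw [e1]; exact h)
    rwa [e1] at this
  · right; left
    have := (hitbit (y, true) x (κ y) hxy).1 (by rw [e2]; exact h)
    rwa [e2] at this
  · right; right
    have hb := hitbit (x, false) y (κ y) hxy.symm
    have hm := meetsbit (x, false) y (κ y)
    rw [e1, e1] at hb hm
    have n1 := not_mem P Q hd (x, false) y hxy.symm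
    have n2 := not_mem P' Q' hd' (x, false) y hxy.symm
    rw [e1] at n1 n2
    obtain ⟨p, hp, q, hq, t, ht, e⟩ := h
    rw [Set.mem_singleton_iff] at hq
    subst hq
    have e' : p = P x + (-t) • v (κ y) := by rw [e]; simp
    obtain ⟨p', hp', t', e''⟩ := hm.1 ⟨p, hp, -t, e'⟩
    have nA : ¬ Ahead (v (κ y)) {P x} (segment ℝ (P y) (Q y)) := by
      intro hA
      rw [ahead_point_iff] at hA
      obtain ⟨z, hz, s, hs, hzs⟩ := hA
      have := point_consist (convex_segment (P y) (Q y)) n1 hz hp hzs e' hs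
      linarith
    have nA' : ¬ Ahead (v (κ y)) {P' x} (segment ℝ (P' y) (Q' y)) := fun hA => nA (hb.2 hA)
    refine ⟨p', hp', P' x, rfl, -t', ?_, by rw [e'']; simp⟩
    by_contra hneg
    push Not at hneg
    rcases lt_or_eq_of_le hneg with h3 | h3
    · exact nA' (ahead_point_iff.2 ⟨p', hp', t', by linarith, e''⟩)
    · have : t' = 0 := by linarith
      subst this
      simp only [zero_smul, add_zero] at e''
      subst e''
      exact n2 hp'

theorem sum_choose_le (N : ℕ) : ∀ D : ℕ, ∑ k ∈ Finset.Iic D, N.choose k ≤ (N + 1) ^ D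
  | 0 => by
    have : Finset.Iic 0 = {0} := by ext k; simp
    rw [this]; simp
  | D + 1 => by
    have h1 : Finset.Iic (D + 1) = insert (D + 1) (Finset.Iic D) := by
      ext k
      simp only [Finset.mem_Iic, Finset.mem_insert]
      omega
    have h2 : D + 1 ∉ Finset.Iic D := by simp
    rw [h1, Finset.sum_insert h2]
    have ih := sum_choose_le N D
    have h3 : N.choose (D + 1) ≤ N ^ (D + 1) := Nat.choose_le_pow N (D + 1)
    have h4 : N ^ (D + 1) ≤ N * (N + 1) ^ D := by
      rw [pow_succ, mul_comm]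
      exact Nat.mul_le_mul_left _ (Nat.pow_le_pow_left (Nat.le_succ N) D)
    calc N.choose (D + 1) + ∑ k ∈ Finset.Iic D, N.choose k
        ≤ N * (N + 1) ^ D + (N + 1) ^ D := Nat.add_le_add (h3.trans h4) ih
      _ = (N + 1) ^ (D + 1) := by ring

/-- Number of positivity patterns of finitely many linear functionals. -/
theorem card_patterns {E : Type} [AddCommGroup E] [Module ℝ E] [FiniteDimensional ℝ E]
    {K : Type} [Fintype K] [DecidableEq K] (g : K → Module.Dual ℝ E)
    (A : Finset (Finset K)) (h : ∀ s ∈ A, ∃ x : E, ∀ k, k ∈ s ↔ 0 < g k x) :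
    A.card ≤ (Fintype.card K + 1) ^ Module.finrank ℝ E := by
  have hvc : A.vcDim ≤ Module.finrank ℝ E := by
    unfold Finset.vcDim
    apply Finset.sup_le
    intro t ht
    rw [Finset.mem_shatterer] at ht
    by_contra hlt
    push Not at hlt
    have hdep : ¬ LinearIndependent ℝ (fun k : t => g k) := by
      intro hli
      have := hli.fintype_card_le_finrank
      rw [Subspace.dual_finrank_eq, Fintype.card_coe] at this
      omega
    rw [Fintype.not_linearIndependent_iff] at hdep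
    have key : ∀ c : t → ℝ, (∀ x : E, ∑ i, c i * g i x = 0) → (∃ i, 0 < c i) → False := by
      rintro c hc ⟨i, hi⟩
      obtain ⟨s, hs, hts⟩ := ht (t := t.filter fun k => ∃ hk : k ∈ t, 0 < c ⟨k, hk⟩)
        (Finset.filter_subset _ _)
      obtain ⟨x, hx⟩ := h s hs
      have hk : ∀ k : t, 0 < c k ↔ 0 < g k x := by
        intro k
        rw [← hx]
        have : (k : K) ∈ t ∩ s ↔ (k : K) ∈ t.filter fun k => ∃ hk : k ∈ t, 0 < c ⟨k, hk⟩ := by
          rw [hts]
        simp only [Finset.mem_inter, Finset.mem_filter, k.2, true_and, exists_true_left] at this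
        exact this.symm
      have h0 : ∑ i, c i * g i x = 0 := hc x
      have hnn : ∀ k ∈ (Finset.univ : Finset t), 0 ≤ c k * g k x := by
        intro k _
        rcases lt_or_ge 0 (c k) with h1 | h1
        · exact (mul_pos h1 ((hk k).1 h1)).le
        · have : ¬ 0 < g k x := fun h2 => absurd ((hk k).2 h2) (not_lt.2 h1)
          exact mul_nonneg_of_nonpos_of_nonpos h1 (not_lt.1 this)
      have := (Finset.sum_eq_zero_iff_of_nonneg hnn).1 h0 i (Finset.mem_univ _)
      have h3 := mul_pos hi ((hk i).1 hi)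
      linarith
    obtain ⟨c, hc, i, hi⟩ := hdep
    have hc' : ∀ x : E, ∑ i, c i * g i x = 0 := by
      intro x
      have := congrArg (fun φ : Module.Dual ℝ E => φ x) hc
      simpa [LinearMap.sum_apply] using this
    rcases lt_or_gt_of_ne hi with h1 | h1
    · apply key (fun k => - c k)
      · intro x
        have : ∑ i, (-c i) * g i x = -∑ i, c i * g i x := by
          rw [← Finset.sum_neg_distrib]
          exact Finset.sum_congr rfl fun i _ => neg_mul _ _
        rw [this, hc' x, neg_zero]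
      · exact ⟨i, by simpa using h1⟩
    · exact key c hc' ⟨i, h1⟩
  calc A.card ≤ A.shatterer.card := Finset.card_le_card_shatterer A
    _ ≤ ∑ k ∈ Finset.Iic A.vcDim, (Fintype.card K).choose k := Finset.card_shatterer_le_sum_vcDim
    _ ≤ (Fintype.card K + 1) ^ A.vcDim := sum_choose_le _ _
    _ ≤ (Fintype.card K + 1) ^ Module.finrank ℝ E := Nat.pow_le_pow_right (Nat.succ_pos _) hvc

/-- the linear functional reading one cross product off a configuration -/
noncomputable def crossFun {X : Type} {m : ℕ} (v : Fin m → ℝ × ℝ)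
    (k : (X × Bool) × (X × Bool) × Fin m) : Module.Dual ℝ (X → (ℝ × ℝ) × (ℝ × ℝ)) where
  toFun e := cr (ept (fun x => (e x).1) (fun x => (e x).2) k.1
    - ept (fun x => (e x).1) (fun x => (e x).2) k.2.1) (v k.2.2)
  map_add' e e' := by
    simp only [ept, cr]
    split_ifs <;> simp <;> ring
  map_smul' c e := by
    simp only [ept, cr]
    split_ifs <;> simp <;> ring

theorem count {X Φ : Type} [Fintype X] [Fintype Φ] {m : ℕ} {v : Fin m → ℝ × ℝ}
    (hv : ∀ i, v i ≠ 0) (hnp : ∃ i j, cr (v i) (v j) ≠ 0) (i0 : Fin m)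
    (P Q : Φ → X → ℝ × ℝ) (κ : Φ → X → Fin m)
    (hd : ∀ φ x y, x ≠ y →
      Disjoint (segment ℝ (P φ x) (Q φ x)) (segment ℝ (P φ y) (Q φ y)))
    (hinj : ∀ φ φ', (∀ x y, SegRel v (P φ) (Q φ) (κ φ) x y ↔ SegRel v (P φ') (Q φ') (κ φ') x y) →
      φ = φ') :
    Fintype.card Φ ≤ m ^ Fintype.card X *
      ((4 * Fintype.card X ^ 2 * m + 1) ^ (4 * Fintype.card X) *
        (Fintype.card X + 1) ^ Fintype.card X) := by
  classical
  let K : Type := (X × Bool) × (X × Bool) × Fin m
  let cfg : Φ → (X → (ℝ × ℝ) × (ℝ × ℝ)) := fun φ x => (P φ x, Q φ x)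
  let σ : Φ → Finset K := fun φ => Finset.univ.filter fun k => 0 < crossFun v k (cfg φ)
  have hK : Fintype.card K = 4 * Fintype.card X ^ 2 * m := by
    simp only [K, Fintype.card_prod, Fintype.card_bool, Fintype.card_fin]; ring
  have hE : Module.finrank ℝ (X → (ℝ × ℝ) × (ℝ × ℝ)) = 4 * Fintype.card X := by
    rw [Module.finrank_pi_fintype]
    simp [Module.finrank_prod]
    ring
  have hA : (Finset.univ.image σ).card ≤
      (4 * Fintype.card X ^ 2 * m + 1) ^ (4 * Fintype.card X) := by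
    rw [← hK, ← hE]
    apply card_patterns (fun k => crossFun v k)
    intro s hs
    obtain ⟨φ, _, rfl⟩ := Finset.mem_image.1 hs
    exact ⟨cfg φ, fun k => by simp [σ]⟩
  let code : Φ → (X → Fin m) × (Finset.univ.image σ) × (X → Fin (Fintype.card X + 1)) :=
    fun φ => (κ φ, ⟨σ φ, Finset.mem_image_of_mem _ (Finset.mem_univ _)⟩,
      fun x => ⟨height (Front (v i0) (P φ) (Q φ)) x, height_le x⟩)
  have step : ∀ φ φ', code φ = code φ' → ∀ x y, SegRel v (P φ) (Q φ) (κ φ) x y →
      SegRel v (P φ') (Q φ') (κ φ') x y := by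
    intro φ φ' hc x y hxy
    have c1 : κ φ = κ φ' := congrArg Prod.fst hc
    have c2 : σ φ = σ φ' := congrArg (fun z => (z.2.1 : Finset K)) hc
    have c3 : (fun x => (⟨height (Front (v i0) (P φ) (Q φ)) x, height_le x⟩ :
        Fin (Fintype.card X + 1))) =
        fun x => ⟨height (Front (v i0) (P φ') (Q φ')) x, height_le x⟩ :=
      congrArg (fun z => z.2.2) hc
    refine code_determines hv hnp i0 (hd φ) (hd φ') c1 ?_ ?_ x y hxy
    · intro z w i
      have : ((z, w, i) : K) ∈ σ φ ↔ ((z, w, i) : K) ∈ σ φ' := by rw [c2]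
      simpa only [σ, cfg, Finset.mem_filter, Finset.mem_univ, true_and, crossFun,
        LinearMap.coe_mk, AddHom.coe_mk] using this
    · intro a
      have := congrFun c3 a
      simpa using this
  have hcode : Function.Injective code := fun φ φ' hc =>
    hinj φ φ' fun x y => ⟨step φ φ' hc x y, step φ' φ hc.symm x y⟩
  have := Fintype.card_le_of_injective code hcode
  rw [Fintype.card_prod, Fintype.card_prod, Fintype.card_fun, Fintype.card_fun, Fintype.card_fin,
    Fintype.card_fin, Fintype.card_coe] at this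
  refine this.trans ?_
  exact Nat.mul_le_mul_left _ (Nat.mul_le_mul_right _ hA)

/-! ## The convex family -/

theorem hull_le {n : ℕ} {w : Fin n → ℝ × ℝ} {a b c : ℝ}
    (h : ∀ j, a * (w j).1 + b * (w j).2 ≤ c) {p : ℝ × ℝ}
    (hp : p ∈ convexHull ℝ (Set.range w)) : a * p.1 + b * p.2 ≤ c := by
  have hc : Convex ℝ {p : ℝ × ℝ | a * p.1 + b * p.2 ≤ c} := by
    intro x hx y hy s t hs ht hst
    simp only [Set.mem_ofPred_eq, Prod.fst_add, Prod.snd_add, Prod.smul_fst, Prod.smul_snd,
      smul_eq_mul] at hx hy ⊢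
    have h1 := mul_le_mul_of_nonneg_left hx hs
    have h2 := mul_le_mul_of_nonneg_left hy ht
    have h3 : s * c + t * c = c := by rw [← add_mul, hst, one_mul]
    linarith
  have hs : Set.range w ⊆ {p : ℝ × ℝ | a * p.1 + b * p.2 ≤ c} := by
    rintro _ ⟨j, rfl⟩
    exact h j
  exact convexHull_min hs hc hp

/-- labels: one integer below `V` for every vertex of every polygon of the grid -/
abbrev Lab (M s V : ℕ) : Type := Fin s × Fin s → Fin M → Fin V

/-- objects of one part: the grid of polygons and the probes -/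
abbrev Obj (M s V : ℕ) : Type := (Fin s × Fin s) ⊕ (Fin M × Fin (4 * M ^ 2 * s * V))

/-- distance of the probes -/
noncomputable def LR (M s V : ℕ) : ℝ := 4 * (M : ℝ) ^ 2 * s * V

/-- size of one part -/
noncomputable def GR (M s V : ℕ) : ℝ := LR M s V * (1 + 2 * V * M)

/-- shift between consecutive parts -/
noncomputable def TR (M s V : ℕ) : ℝ := 2 * GR M s V + 1

/-- vertices of the polygons -/
noncomputable def vtx {M s V : ℕ} (φ : Lab M s V) (τ : ℝ) (c r : Fin s) (j : Fin M) : ℝ × ℝ :=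
  ((M : ℝ) * c + j + τ, (V : ℝ) * M ^ 2 * r - V * (j : ℝ) ^ 2 + (φ (c, r) j : ℕ) + τ)

/-- one part, shifted by `(τ, τ)` -/
noncomputable def part {M s V : ℕ} (φ : Lab M s V) (τ : ℝ) : Obj M s V → Set (ℝ × ℝ)
  | .inl (c, r) => convexHull ℝ (Set.range (vtx φ τ c r))
  | .inr (i, l) => {(-LR M s V + τ, (l : ℕ) + 2 * V * (i : ℕ) * LR M s V + τ)}

/-- directions of motion in one part -/
noncomputable def pdir {M s V : ℕ} : Obj M s V → ℝ × ℝ
  | .inl _ => (0, 1)
  | .inr (i, _) => (1, -(2 * V * (i : ℕ)))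

/-- top value of the functional `y + 2 V i x` on a polygon with label 0 -/
def base (M V i c r : ℕ) : ℕ := V * M ^ 2 * r + 2 * V * i * M * c + V * i ^ 2

theorem fin_cast_le {n : ℕ} (i : Fin n) : ((i : ℕ) : ℝ) + 1 ≤ n := by
  exact_mod_cast Nat.succ_le_of_lt i.2

theorem base_lt {M s V i c r k : ℕ} (hi : i < M) (hc : c < s) (hr : r < s) (hk : k < V) :
    base M V i c r + k < 4 * M ^ 2 * s * V := by
  unfold base
  have h1 : V * i ^ 2 + V ≤ V * M ^ 2 := by
    have : i ^ 2 + 1 ≤ M ^ 2 := by nlinarith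
    calc V * i ^ 2 + V = V * (i ^ 2 + 1) := by ring
      _ ≤ V * M ^ 2 := Nat.mul_le_mul_left _ this
  have h2 : V * M ^ 2 * r + V * M ^ 2 ≤ V * M ^ 2 * s := by
    calc V * M ^ 2 * r + V * M ^ 2 = V * M ^ 2 * (r + 1) := by ring
      _ ≤ V * M ^ 2 * s := Nat.mul_le_mul_left _ hr
  have h3 : 2 * V * i * M * c ≤ 2 * V * M ^ 2 * s := by
    calc 2 * V * i * M * c ≤ 2 * V * M * M * s := by gcongr
      _ = 2 * V * M ^ 2 * s := by ring
  have h4 : 4 * M ^ 2 * s * V = V * M ^ 2 * s + 2 * V * M ^ 2 * s + V * M ^ 2 * s := by ring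
  omega

section facts

variable {M s V : ℕ} (φ : Lab M s V) (τ : ℝ)

theorem part_x {c r : Fin s} {p : ℝ × ℝ} (hp : p ∈ part φ τ (.inl (c, r))) :
    (M : ℝ) * c ≤ p.1 - τ ∧ p.1 - τ ≤ M * c + (M - 1) := by
  constructor
  · have := hull_le (a := -1) (b := 0) (c := -((M : ℝ) * c) - τ) (fun j => ?_) hp
    · linarith
    · simp only [vtx]
      have : (0 : ℝ) ≤ ((j : ℕ) : ℝ) := Nat.cast_nonneg _
      linarith
  · have := hull_le (a := 1) (b := 0) (c := (M : ℝ) * c + (M - 1) + τ) (fun j => ?_) hp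
    · linarith
    · simp only [vtx]
      have := fin_cast_le j
      linarith

theorem part_y {c r : Fin s} {p : ℝ × ℝ} (hp : p ∈ part φ τ (.inl (c, r))) :
    (V : ℝ) * M ^ 2 * r - V * (M - 1) ^ 2 ≤ p.2 - τ ∧ p.2 - τ ≤ V * M ^ 2 * r + (V - 1) := by
  have hV : (0 : ℝ) ≤ V := Nat.cast_nonneg _
  constructor
  · have := hull_le (a := 0) (b := -1)
      (c := -((V : ℝ) * M ^ 2 * r - V * (M - 1) ^ 2) - τ) (fun j => ?_) hp
    · linarith
    · simp only [vtx]
      have h0 : (0 : ℝ) ≤ ((j : ℕ) : ℝ) := Nat.cast_nonneg _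
      have h1 := fin_cast_le j
      have h2 : (0 : ℝ) ≤ ((φ (c, r) j : ℕ) : ℝ) := Nat.cast_nonneg _
      have h3 : ((j : ℕ) : ℝ) ^ 2 ≤ ((M : ℝ) - 1) ^ 2 := pow_le_pow_left₀ h0 (by linarith) 2
      have h4 := mul_le_mul_of_nonneg_left h3 hV
      linarith
  · have := hull_le (a := 0) (b := 1)
      (c := (V : ℝ) * M ^ 2 * r + (V - 1) + τ) (fun j => ?_) hp
    · linarith
    · simp only [vtx]
      have h2 := fin_cast_le (φ (c, r) j)
      have h4 : 0 ≤ (V : ℝ) * ((j : ℕ) : ℝ) ^ 2 := by positivity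
      linarith

theorem part_h {c r : Fin s} {p : ℝ × ℝ} (hp : p ∈ part φ τ (.inl (c, r))) (i : Fin M) :
    (p.2 - τ) + 2 * V * i * (p.1 - τ) ≤ base M V i c r + (φ (c, r) i : ℕ) := by
  have := hull_le (a := 2 * V * i) (b := 1)
    (c := base M V i c r + (φ (c, r) i : ℕ) + τ + 2 * V * i * τ) (fun j => ?_) hp
  · linarith
  · simp only [vtx, base]
    push_cast
    by_cases hij : j = i
    · subst hij
      linarith
    · have h2 := fin_cast_le (φ (c, r) j)
      have h3 : (0 : ℝ) ≤ ((φ (c, r) i : ℕ) : ℝ) := Nat.cast_nonneg _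
      have h4 : (1 : ℝ) ≤ (((i : ℕ) : ℝ) - ((j : ℕ) : ℝ)) ^ 2 := by
        have h5 : (j : ℕ) ≠ (i : ℕ) := fun h => hij (Fin.ext h)
        rcases lt_or_gt_of_ne h5 with h6 | h6
        · have : ((j : ℕ) : ℝ) + 1 ≤ (i : ℕ) := by exact_mod_cast Nat.succ_le_of_lt h6
          nlinarith
        · have : ((i : ℕ) : ℝ) + 1 ≤ (j : ℕ) := by exact_mod_cast Nat.succ_le_of_lt h6
          nlinarith
      have hV : (0 : ℝ) ≤ V := Nat.cast_nonneg _
      have h5 := mul_le_mul_of_nonneg_left h4 hV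
      nlinarith

theorem part_hit (hM : 2 ≤ M) {c r : Fin s} (i : Fin M) {δ : ℝ} (h1 : (base M V i c r : ℝ) ≤ δ)
    (h2 : δ ≤ base M V i c r + (φ (c, r) i : ℕ)) :
    ∃ p ∈ part φ τ (.inl (c, r)), (p.2 - τ) + 2 * V * i * (p.1 - τ) = δ := by
  have hi : vtx φ τ c r i ∈ part φ τ (.inl (c, r)) :=
    subset_convexHull ℝ _ ⟨i, rfl⟩
  obtain ⟨j, hj⟩ : ∃ j : Fin M, j ≠ i := by
    have : Nontrivial (Fin M) := Fin.nontrivial_iff_two_le.2 hM
    exact exists_ne i
  have hjm : vtx φ τ c r j ∈ part φ τ (.inl (c, r)) :=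
    subset_convexHull ℝ _ ⟨j, rfl⟩
  have hconv : Convex ℝ (part φ τ (.inl (c, r))) := convex_convexHull _ _
  have ecr : ∀ p : ℝ × ℝ, cr p (-1, 2 * V * (i : ℕ)) = p.2 + 2 * V * (i : ℕ) * p.1 := by
    intro p; simp only [cr]; ring
  obtain ⟨x, hx, hx2⟩ := ivt (v := (-1, 2 * V * (i : ℕ))) (δ := δ + τ + 2 * V * (i : ℕ) * τ)
    hconv hjm hi (by
      rw [ecr]
      simp only [vtx]
      simp only [base] at h1
      push_cast at h1
      have h3 := fin_cast_le (φ (c, r) j)
      have h4 : (1 : ℝ) ≤ (((i : ℕ) : ℝ) - ((j : ℕ) : ℝ)) ^ 2 := by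
        have h5 : (j : ℕ) ≠ (i : ℕ) := fun h => hj (Fin.ext h)
        rcases lt_or_gt_of_ne h5 with h6 | h6
        · have : ((j : ℕ) : ℝ) + 1 ≤ (i : ℕ) := by exact_mod_cast Nat.succ_le_of_lt h6
          nlinarith
        · have : ((i : ℕ) : ℝ) + 1 ≤ (j : ℕ) := by exact_mod_cast Nat.succ_le_of_lt h6
          nlinarith
      have hV : (0 : ℝ) ≤ V := Nat.cast_nonneg _
      have h5 := mul_le_mul_of_nonneg_left h4 hV
      nlinarith) (by
      rw [ecr]
      simp only [vtx]
      simp only [base] at h2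
      push_cast at h2
      linarith)
  refine ⟨x, hx, ?_⟩
  rw [ecr] at hx2
  linarith

end facts

section family

variable {M s V : ℕ}

/-- the whole family: one shifted part for every label -/
noncomputable def fam (ν : Lab M s V → ℕ) : Lab M s V × Obj M s V → Set (ℝ × ℝ) :=
  fun x => part x.1 (TR M s V * ν x.1) x.2

/-- its directions -/
noncomputable def fdir : Lab M s V × Obj M s V → ℝ × ℝ := fun x => pdir x.2

theorem LR_pos (hM : 1 ≤ M) (hs : 1 ≤ s) (hV : 1 ≤ V) : 0 < LR M s V := by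
  unfold LR
  have h1 : (0 : ℝ) < M := by exact_mod_cast hM
  have h2 : (0 : ℝ) < s := by exact_mod_cast hs
  have h3 : (0 : ℝ) < V := by exact_mod_cast hV
  positivity

theorem LR_eq : LR M s V = ((4 * M ^ 2 * s * V : ℕ) : ℝ) := by
  unfold LR; push_cast; ring

theorem LR_le_GR (hM : 1 ≤ M) (hs : 1 ≤ s) (hV : 1 ≤ V) : LR M s V ≤ GR M s V := by
  unfold GR
  have h := LR_pos hM hs hV
  have h1 : (0 : ℝ) ≤ 2 * V * M := by positivity
  nlinarith

/-- x-coordinates of a part -/
theorem range_x (hM : 1 ≤ M) (hs : 1 ≤ s) (hV : 1 ≤ V) (φ : Lab M s V) (τ : ℝ) (x : Obj M s V)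
    {p : ℝ × ℝ} (hp : p ∈ part φ τ x) : |p.1 - τ| ≤ GR M s V := by
  have hL := LR_le_GR hM hs hV
  have hL0 := LR_pos hM hs hV
  rcases x with ⟨c, r⟩ | ⟨i, l⟩
  · obtain ⟨h1, h2⟩ := part_x φ τ hp
    have hc := fin_cast_le c
    have h0 : (0 : ℝ) ≤ ((c : ℕ) : ℝ) := Nat.cast_nonneg _
    have hM' : (1 : ℝ) ≤ M := by exact_mod_cast hM
    have hV' : (1 : ℝ) ≤ V := by exact_mod_cast hV
    have hs' : (1 : ℝ) ≤ s := by exact_mod_cast hs
    have h3 : (M : ℝ) * c ≤ M * (s - 1) := mul_le_mul_of_nonneg_left (by linarith) (by linarith)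
    have h4 : (0 : ℝ) ≤ M * c := by positivity
    have h5 : (M : ℝ) * s ≤ LR M s V := by
      unfold LR
      have : (1 : ℝ) ≤ 4 * M * V := by nlinarith
      calc (M : ℝ) * s = M * s * 1 := by ring
        _ ≤ M * s * (4 * M * V) := mul_le_mul_of_nonneg_left this (by positivity)
        _ = _ := by ring
    rw [abs_le]
    constructor <;> linarith
  · simp only [part, Set.mem_singleton_iff] at hp
    rw [hp]
    simp only [add_sub_cancel_right]
    rw [abs_neg, abs_of_pos hL0]
    exact hL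

/-- values of the functional `y + 2 V i x` on a part -/
theorem range_h (hM : 1 ≤ M) (hs : 1 ≤ s) (hV : 1 ≤ V) (φ : Lab M s V) (τ : ℝ) (x : Obj M s V)
    {p : ℝ × ℝ} (hp : p ∈ part φ τ x) (i : Fin M) :
    |(p.2 - τ) + 2 * V * (i : ℕ) * (p.1 - τ)| ≤ GR M s V := by
  have hL := LR_le_GR hM hs hV
  have hL0 := LR_pos hM hs hV
  have hM' : (1 : ℝ) ≤ M := by exact_mod_cast hM
  have hV' : (1 : ℝ) ≤ V := by exact_mod_cast hV
  have hs' : (1 : ℝ) ≤ s := by exact_mod_cast hs
  have hi0 : (0 : ℝ) ≤ ((i : ℕ) : ℝ) := Nat.cast_nonneg _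
  have hi1 := fin_cast_le i
  rcases x with ⟨c, r⟩ | ⟨i', l⟩
  · obtain ⟨h1, h2⟩ := part_x φ τ hp
    obtain ⟨h3, h4⟩ := part_y φ τ hp
    have h5 := part_h φ τ hp i
    have h6 : ((base M V i c r + (φ (c, r) i : ℕ) : ℕ) : ℝ) ≤ LR M s V := by
      rw [LR_eq]
      exact_mod_cast (base_lt i.2 c.2 r.2 (φ (c, r) i).2).le
    push_cast at h6
    have h0 : (0 : ℝ) ≤ ((c : ℕ) : ℝ) := Nat.cast_nonneg _
    have h7 : (0 : ℝ) ≤ M * c := by positivity
    have h8 : 0 ≤ 2 * (V : ℝ) * (i : ℕ) * (p.1 - τ) :=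
      mul_nonneg (by positivity) (by linarith)
    have h9 : (V : ℝ) * (M - 1) ^ 2 ≤ LR M s V := by
      unfold LR
      have e1 : ((M : ℝ) - 1) ^ 2 ≤ M ^ 2 := pow_le_pow_left₀ (by linarith) (by linarith) 2
      have e2 : (1 : ℝ) ≤ 4 * s := by linarith
      calc (V : ℝ) * (M - 1) ^ 2 ≤ V * M ^ 2 := mul_le_mul_of_nonneg_left e1 (by linarith)
        _ = V * M ^ 2 * 1 := by ring
        _ ≤ V * M ^ 2 * (4 * s) := mul_le_mul_of_nonneg_left e2 (by positivity)
        _ = _ := by ring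
    have h10 : (0 : ℝ) ≤ V * M ^ 2 * (r : ℕ) := by positivity
    rw [abs_le]
    constructor <;> linarith
  · simp only [part, Set.mem_singleton_iff] at hp
    rw [hp]
    have e : (((l : ℕ) : ℝ) + 2 * V * (i' : ℕ) * LR M s V + τ - τ) +
        2 * V * (i : ℕ) * (-LR M s V + τ - τ) =
        (l : ℕ) + 2 * V * LR M s V * ((i' : ℕ) - (i : ℕ)) := by ring
    simp only [e]
    have hl0 : (0 : ℝ) ≤ ((l : ℕ) : ℝ) := Nat.cast_nonneg _
    have hl1 : ((l : ℕ) : ℝ) ≤ LR M s V := by
      rw [LR_eq]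
      exact_mod_cast l.2.le
    have hi0' : (0 : ℝ) ≤ ((i' : ℕ) : ℝ) := Nat.cast_nonneg _
    have hi1' := fin_cast_le i'
    have hpos : (0 : ℝ) ≤ 2 * V * LR M s V := by positivity
    have u1 : 2 * V * LR M s V * (((i' : ℕ) : ℝ) - (i : ℕ)) ≤ 2 * V * LR M s V * M :=
      mul_le_mul_of_nonneg_left (by linarith) hpos
    have u2 : 2 * V * LR M s V * (-M) ≤ 2 * V * LR M s V * (((i' : ℕ) : ℝ) - (i : ℕ)) :=
      mul_le_mul_of_nonneg_left (by linarith) hpos
    have u3 : GR M s V = LR M s V + 2 * V * LR M s V * M := by unfold GR; ring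
    rw [abs_le, u3]
    constructor <;> linarith

/-- distinct parts are far apart -/
theorem sep {M s V : ℕ} (hM : 1 ≤ M) (hs : 1 ≤ s) (hV : 1 ≤ V) {n n' : ℕ} {a a' k : ℝ}
    (hk : 1 ≤ k) (ha : |a - TR M s V * n * k| ≤ GR M s V)
    (ha' : |a' - TR M s V * n' * k| ≤ GR M s V) (h : a = a') : n = n' := by
  subst h
  have hG : 0 < GR M s V := lt_of_lt_of_le (LR_pos hM hs hV) (LR_le_GR hM hs hV)
  have hT : TR M s V = 2 * GR M s V + 1 := rfl
  rw [abs_le] at ha ha'
  by_contra hne
  rcases lt_or_gt_of_ne hne with h1 | h1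
  · have h2 : (n : ℝ) + 1 ≤ n' := by exact_mod_cast Nat.succ_le_of_lt h1
    have h3 : TR M s V * k * 1 ≤ TR M s V * k * (n' - n) :=
      mul_le_mul_of_nonneg_left (by linarith) (by rw [hT]; positivity)
    have h4 : TR M s V * 1 ≤ TR M s V * k := mul_le_mul_of_nonneg_left hk (by rw [hT]; positivity)
    nlinarith
  · have h2 : (n' : ℝ) + 1 ≤ n := by exact_mod_cast Nat.succ_le_of_lt h1
    have h3 : TR M s V * k * 1 ≤ TR M s V * k * (n - n') :=
      mul_le_mul_of_nonneg_left (by linarith) (by rw [hT]; positivity)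
    have h4 : TR M s V * 1 ≤ TR M s V * k := mul_le_mul_of_nonneg_left hk (by rw [hT]; positivity)
    nlinarith

variable {ν : Lab M s V → ℕ}

theorem same_part_of_x (hM : 1 ≤ M) (hs : 1 ≤ s) (hV : 1 ≤ V) (hν : Function.Injective ν)
    {φ φ' : Lab M s V} {x x' : Obj M s V} {p q : ℝ × ℝ} (hp : p ∈ fam ν (φ, x))
    (hq : q ∈ fam ν (φ', x')) (h : p.1 = q.1) : φ = φ' := by
  have h1 := range_x hM hs hV _ _ _ hp
  have h2 := range_x hM hs hV _ _ _ hq
  apply hν
  exact sep hM hs hV (k := 1) le_rfl (by simpa using h1) (by simpa using h2) h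

theorem blocks_same_part (hM : 1 ≤ M) (hs : 1 ≤ s) (hV : 1 ≤ V) (hν : Function.Injective ν)
    {φ φ' : Lab M s V} {x x' : Obj M s V} (h : Blocks (fam ν) fdir (φ, x) (φ', x')) :
    φ = φ' := by
  obtain ⟨_, p, hp, q, hq, t, ht, e⟩ := h
  rcases x' with ⟨c, r⟩ | ⟨i, l⟩
  · have e1 : q.1 = p.1 := by rw [e]; simp [fdir, pdir]
    exact same_part_of_x hM hs hV hν hq hp e1
  · have h1 := range_h hM hs hV _ _ _ hp i
    have h2 := range_h hM hs hV _ _ _ hq i
    have e1 : q.2 + 2 * V * (i : ℕ) * q.1 = p.2 + 2 * V * (i : ℕ) * p.1 := by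
      rw [e]; simp [fdir, pdir]; ring
    apply hν
    have hk : (1 : ℝ) ≤ 1 + 2 * V * (i : ℕ) := by
      have : (0 : ℝ) ≤ 2 * V * (i : ℕ) := by positivity
      linarith
    refine sep hM hs hV (k := 1 + 2 * V * (i : ℕ)) hk ?_ ?_ e1
    · convert h2 using 2
      ring
    · convert h1 using 2
      ring

theorem not_blocks_probe (hM : 1 ≤ M) (hs : 1 ≤ s) (hV : 1 ≤ V) (hν : Function.Injective ν)
    {φ φ' : Lab M s V} {b : Fin M × Fin (4 * M ^ 2 * s * V)} {x' : Obj M s V} :
    ¬ Blocks (fam ν) fdir (φ, .inr b) (φ', x') := by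
  intro h
  have := blocks_same_part hM hs hV hν h
  subst this
  obtain ⟨_, p, hp, q, hq, t, ht, e⟩ := h
  have hL0 := LR_pos hM hs hV
  obtain ⟨i', l'⟩ := b
  simp only [fam, part, Set.mem_singleton_iff] at hq
  have hq1 : q.1 = -LR M s V + TR M s V * ν φ := by rw [hq]
  rcases x' with ⟨c, r⟩ | ⟨i, l⟩
  · have e1 : q.1 = p.1 := by rw [e]; simp [fdir, pdir]
    obtain ⟨h1, h2⟩ := part_x _ _ hp
    have h0 : (0 : ℝ) ≤ (M : ℝ) * (c : ℕ) := by positivity
    linarith
  · have e1 : q.1 = p.1 + t := by rw [e]; simp [fdir, pdir]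
    simp only [fam, part, Set.mem_singleton_iff] at hp
    have hp1 : p.1 = -LR M s V + TR M s V * ν φ := by rw [hp]
    linarith

theorem col_eq {c c' : ℕ} {x : ℝ} (h1 : (M : ℝ) * c ≤ x) (h2 : x ≤ M * c + (M - 1))
    (h1' : (M : ℝ) * c' ≤ x) (h2' : x ≤ M * c' + (M - 1)) : c = c' := by
  by_contra hne
  rcases lt_or_gt_of_ne hne with h3 | h3
  · have : (c : ℝ) + 1 ≤ c' := by exact_mod_cast Nat.succ_le_of_lt h3
    have := mul_le_mul_of_nonneg_left this (Nat.cast_nonneg (α := ℝ) M)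
    linarith
  · have : (c' : ℝ) + 1 ≤ c := by exact_mod_cast Nat.succ_le_of_lt h3
    have := mul_le_mul_of_nonneg_left this (Nat.cast_nonneg (α := ℝ) M)
    linarith

/-- a polygon in a higher row is strictly higher -/
theorem row_lt (hM : 1 ≤ M) (hV : 1 ≤ V) {r r' : ℕ} {y y' : ℝ} (h : r < r')
    (h1 : y ≤ V * M ^ 2 * r + (V - 1)) (h2 : (V : ℝ) * M ^ 2 * r' - V * (M - 1) ^ 2 ≤ y') :
    y < y' := by
  have hM' : (1 : ℝ) ≤ M := by exact_mod_cast hM
  have hV' : (1 : ℝ) ≤ V := by exact_mod_cast hV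
  have h3 : (r : ℝ) + 1 ≤ r' := by exact_mod_cast Nat.succ_le_of_lt h
  have h4 : (V : ℝ) * M ^ 2 * (r + 1) ≤ V * M ^ 2 * r' :=
    mul_le_mul_of_nonneg_left h3 (by positivity)
  have h5 : (V : ℝ) * 1 ≤ V * (2 * M - 1) := mul_le_mul_of_nonneg_left (by linarith) (by linarith)
  nlinarith

theorem blocks_poly (hM : 1 ≤ M) (hV : 1 ≤ V)
    {φ : Lab M s V} {c r c' r' : Fin s} :
    Blocks (fam ν) fdir (φ, .inl (c, r)) (φ, .inl (c', r')) ↔ (c = c' ∧ r' < r) := by
  constructor
  · rintro ⟨hne, p, hp, q, hq, t, ht, e⟩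
    have e1 : q.1 = p.1 := by rw [e]; simp [fdir, pdir]
    have e2 : q.2 = p.2 + t := by rw [e]; simp [fdir, pdir]
    obtain ⟨a1, a2⟩ := part_x _ _ hp
    obtain ⟨b1, b2⟩ := part_x _ _ hq
    obtain ⟨a3, a4⟩ := part_y _ _ hp
    obtain ⟨b3, b4⟩ := part_y _ _ hq
    rw [e1] at b1 b2
    have hc : c = c' := Fin.ext (col_eq b1 b2 a1 a2)
    refine ⟨hc, ?_⟩
    subst hc
    by_contra hlt
    push Not at hlt
    rcases lt_or_eq_of_le hlt with h3 | h3
    · have := row_lt hM hV (Fin.lt_def.1 h3) b4 a3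
      linarith
    · subst h3
      exact hne rfl
  · rintro ⟨rfl, hr⟩
    have hM0 : 0 < M := hM
    refine ⟨?_, vtx φ (TR M s V * ν φ) c r' ⟨0, hM0⟩, subset_convexHull ℝ _ ⟨_, rfl⟩,
      vtx φ (TR M s V * ν φ) c r ⟨0, hM0⟩, subset_convexHull ℝ _ ⟨_, rfl⟩,
      (vtx φ (TR M s V * ν φ) c r ⟨0, hM0⟩).2 - (vtx φ (TR M s V * ν φ) c r' ⟨0, hM0⟩).2, ?_, ?_⟩
    · intro h
      have h1 : (c, r) = (c, r') := by simpa using h
      have h2 : r = r' := congrArg Prod.snd h1
      exact absurd h2 hr.ne'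
    · have m1 : vtx φ (TR M s V * ν φ) c r ⟨0, hM0⟩ ∈ part φ (TR M s V * ν φ) (.inl (c, r)) :=
        subset_convexHull ℝ _ ⟨_, rfl⟩
      have m2 : vtx φ (TR M s V * ν φ) c r' ⟨0, hM0⟩ ∈ part φ (TR M s V * ν φ) (.inl (c, r')) :=
        subset_convexHull ℝ _ ⟨_, rfl⟩
      have n1 := (part_y _ _ m1).1
      have n2 := (part_y _ _ m2).2
      have := row_lt hM hV (Fin.lt_def.1 hr) n2 n1
      linarith
    · ext
      · simp [fdir, pdir, vtx]
      · simp [fdir, pdir]

theorem blocks_probe_le {φ : Lab M s V} {c r : Fin s} {i : Fin M}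
    {l : Fin (4 * M ^ 2 * s * V)}
    (h : Blocks (fam ν) fdir (φ, .inl (c, r)) (φ, .inr (i, l))) :
    (l : ℕ) ≤ base M V i c r + φ (c, r) i := by
  obtain ⟨_, p, hp, q, hq, t, ht, e⟩ := h
  have h5 := part_h _ _ hq i
  simp only [fam, part, Set.mem_singleton_iff] at hp
  have e1 : q.2 + 2 * V * (i : ℕ) * q.1 = p.2 + 2 * V * (i : ℕ) * p.1 := by
    rw [e]; simp [fdir, pdir]; ring
  have e2 : (q.2 - TR M s V * ν φ) + 2 * V * (i : ℕ) * (q.1 - TR M s V * ν φ) = (l : ℕ) := by
    have p1 : p.1 = -LR M s V + TR M s V * ν φ := by rw [hp]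
    have p2 : p.2 = (l : ℕ) + 2 * V * (i : ℕ) * LR M s V + TR M s V * ν φ := by rw [hp]
    rw [p1, p2] at e1
    linarith
  rw [e2] at h5
  exact_mod_cast h5

theorem blocks_probe_of (hM : 2 ≤ M) (hs : 1 ≤ s) (hV : 1 ≤ V)
    {φ : Lab M s V} {c r : Fin s} {i : Fin M} {l : Fin (4 * M ^ 2 * s * V)}
    (h1 : base M V i c r ≤ l) (h2 : (l : ℕ) ≤ base M V i c r + φ (c, r) i) :
    Blocks (fam ν) fdir (φ, .inl (c, r)) (φ, .inr (i, l)) := by
  obtain ⟨q, hq, hq2⟩ := part_hit φ (TR M s V * ν φ) hM (c := c) (r := r) i (δ := (l : ℕ))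
    (by exact_mod_cast h1) (by exact_mod_cast h2)
  refine ⟨by simp, _, rfl, q, hq, q.1 - TR M s V * ν φ + LR M s V, ?_, ?_⟩
  · obtain ⟨b1, b2⟩ := part_x _ _ hq
    have h0 : (0 : ℝ) ≤ (M : ℝ) * (c : ℕ) := by positivity
    have hL0 := LR_pos (by omega : 1 ≤ M) hs hV
    linarith
  · ext
    · simp [fdir, pdir]
      ring
    · simp [fdir, pdir]
      linarith

end family

section order

variable {M s V : ℕ} {ν : Lab M s V → ℕ}

theorem base_mono {i c r r' : ℕ} (h : r' ≤ r) : base M V i c r' ≤ base M V i c r := by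
  unfold base; gcongr

theorem base_step {i c r r' : ℕ} (hM : 1 ≤ M) (h : r' < r) :
    base M V i c r' + V ≤ base M V i c r := by
  unfold base
  have h1 : V * M ^ 2 * r' + V ≤ V * M ^ 2 * r := by
    calc V * M ^ 2 * r' + V = V * M ^ 2 * r' + V * 1 := by ring
      _ ≤ V * M ^ 2 * r' + V * M ^ 2 := by gcongr; exact Nat.one_le_pow _ _ hM
      _ = V * M ^ 2 * (r' + 1) := by ring
      _ ≤ V * M ^ 2 * r := Nat.mul_le_mul_left _ h
  omega

theorem order_same_part (hM : 1 ≤ M) (hs : 1 ≤ s) (hV : 1 ≤ V) (hν : Function.Injective ν)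
    {x y : Lab M s V × Obj M s V} (h : BlockingOrder (fam ν) fdir x y) : x.1 = y.1 := by
  unfold BlockingOrder at h
  induction h with
  | single h => exact blocks_same_part (φ := _) (φ' := _) (x := _) (x' := _) hM hs hV hν h
  | tail _ h ih => exact ih.trans (blocks_same_part hM hs hV hν h)

/-- what lies below a polygon -/
theorem order_poly (hM : 1 ≤ M) (hs : 1 ≤ s) (hV : 1 ≤ V) (hν : Function.Injective ν)
    {φ : Lab M s V} {c r : Fin s} {y : Lab M s V × Obj M s V}
    (h : BlockingOrder (fam ν) fdir (φ, .inl (c, r)) y) :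
    (∃ r', r' < r ∧ y = (φ, .inl (c, r'))) ∨
      (∃ (i : Fin M) (l : Fin (4 * M ^ 2 * s * V)), y = (φ, .inr (i, l)) ∧
        (l : ℕ) ≤ base M V i c r + φ (c, r) i) := by
  unfold BlockingOrder at h
  induction h with
  | @single b h =>
    obtain ⟨φ', x'⟩ := b
    have e := blocks_same_part hM hs hV hν h
    subst e
    rcases x' with ⟨c', r'⟩ | ⟨i, l⟩
    · rw [blocks_poly hM hV] at h
      obtain ⟨rfl, h⟩ := h
      exact Or.inl ⟨r', h, rfl⟩
    · exact Or.inr ⟨i, l, rfl, blocks_probe_le h⟩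
  | @tail b c' _ h ih =>
    rcases ih with ⟨r', hr', rfl⟩ | ⟨i, l, rfl, _⟩
    · obtain ⟨φ', x'⟩ := c'
      have e := blocks_same_part hM hs hV hν h
      subst e
      rcases x' with ⟨c'', r''⟩ | ⟨i, l⟩
      · rw [blocks_poly hM hV] at h
        obtain ⟨rfl, h⟩ := h
        exact Or.inl ⟨r'', h.trans hr', rfl⟩
      · refine Or.inr ⟨i, l, rfl, ?_⟩
        have h1 := blocks_probe_le h
        have h2 := base_step (V := V) (i := i) (c := c) hM (Fin.lt_def.1 hr')
        have h3 := (φ (c, r') i).2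
        omega
    · obtain ⟨φ', x'⟩ := c'
      exact absurd h (not_blocks_probe hM hs hV hν)

theorem order_probe (hM : 1 ≤ M) (hs : 1 ≤ s) (hV : 1 ≤ V) (hν : Function.Injective ν)
    {φ : Lab M s V} {b : Fin M × Fin (4 * M ^ 2 * s * V)} {y : Lab M s V × Obj M s V} :
    ¬ BlockingOrder (fam ν) fdir (φ, .inr b) y := by
  intro h
  obtain ⟨c, hc, _⟩ := Relation.TransGen.head'_iff.1 h
  obtain ⟨φ', x'⟩ := c
  exact not_blocks_probe hM hs hV hν hc

theorem fam_acyclic (hM : 1 ≤ M) (hs : 1 ≤ s) (hV : 1 ≤ V) (hν : Function.Injective ν)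
    (x : Lab M s V × Obj M s V) : ¬ BlockingOrder (fam ν) fdir x x := by
  intro h
  obtain ⟨φ, ⟨c, r⟩ | b⟩ := x
  · rcases order_poly hM hs hV hν h with ⟨r', hr', e⟩ | ⟨i, l, e, _⟩
    · have h1 : (c, r) = (c, r') := by simpa using e
      have h2 : r = r' := congrArg Prod.snd h1
      exact absurd h2 hr'.ne'
    · simp at e
  · exact order_probe hM hs hV hν h

theorem fam_disjoint (hM : 1 ≤ M) (hs : 1 ≤ s) (hV : 1 ≤ V) (hν : Function.Injective ν)
    (x y : Lab M s V × Obj M s V) (hxy : x ≠ y) : Disjoint (fam ν x) (fam ν y) := by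
  rw [Set.disjoint_left]
  intro p hp hq
  apply hxy
  obtain ⟨φ, x⟩ := x
  obtain ⟨φ', y⟩ := y
  have e := same_part_of_x hM hs hV hν hp hq rfl
  subst e
  have hL0 := LR_pos hM hs hV
  rcases x with ⟨c, r⟩ | ⟨i, l⟩ <;> rcases y with ⟨c', r'⟩ | ⟨i', l'⟩
  · obtain ⟨a1, a2⟩ := part_x _ _ hp
    obtain ⟨b1, b2⟩ := part_x _ _ hq
    obtain ⟨a3, a4⟩ := part_y _ _ hp
    obtain ⟨b3, b4⟩ := part_y _ _ hq
    have hc : c = c' := Fin.ext (col_eq a1 a2 b1 b2)
    subst hc
    have hr : r = r' := by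
      rcases lt_trichotomy r r' with h | h | h
      · have := row_lt hM hV (Fin.lt_def.1 h) a4 b3
        exact absurd this (lt_irrefl _)
      · exact h
      · have := row_lt hM hV (Fin.lt_def.1 h) b4 a3
        exact absurd this (lt_irrefl _)
    rw [hr]
  · exfalso
    obtain ⟨a1, a2⟩ := part_x _ _ hp
    simp only [fam, part, Set.mem_singleton_iff] at hq
    have hq1 : p.1 = -LR M s V + TR M s V * ν φ := by rw [hq]
    have h0 : (0 : ℝ) ≤ (M : ℝ) * (c : ℕ) := by positivity
    linarith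
  · exfalso
    obtain ⟨a1, a2⟩ := part_x _ _ hq
    simp only [fam, part, Set.mem_singleton_iff] at hp
    have hp1 : p.1 = -LR M s V + TR M s V * ν φ := by rw [hp]
    have h0 : (0 : ℝ) ≤ (M : ℝ) * (c' : ℕ) := by positivity
    linarith
  · simp only [fam, part, Set.mem_singleton_iff] at hp hq
    have e1 := congrArg Prod.snd (hp.symm.trans hq)
    simp only at e1
    have e2 : ((l : ℕ) : ℝ) + 2 * V * (i : ℕ) * LR M s V =
        (l' : ℕ) + 2 * V * (i' : ℕ) * LR M s V := by linarith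
    rw [LR_eq] at e2
    have e3 : (l : ℕ) + (4 * M ^ 2 * s * V) * (2 * V * i) =
        l' + (4 * M ^ 2 * s * V) * (2 * V * i') := by
      have : (((l : ℕ) + (4 * M ^ 2 * s * V) * (2 * V * i) : ℕ) : ℝ) =
        ((l' + (4 * M ^ 2 * s * V) * (2 * V * i') : ℕ) : ℝ) := by
        push_cast
        push_cast at e2
        linarith
      exact_mod_cast this
    have e4 : (l : ℕ) = l' := by
      have := congrArg (· % (4 * M ^ 2 * s * V)) e3
      simpa [Nat.add_mul_mod_self_left, Nat.mod_eq_of_lt l.2, Nat.mod_eq_of_lt l'.2] using this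
    have e5 : (4 * M ^ 2 * s * V) * (2 * V * i) = (4 * M ^ 2 * s * V) * (2 * V * (i' : ℕ)) := by
      omega
    have hpos : 0 < 4 * M ^ 2 * s * V := by positivity
    have e6 := Nat.eq_of_mul_eq_mul_left hpos e5
    have e7 : (i : ℕ) = i' := Nat.eq_of_mul_eq_mul_left (by omega : 0 < 2 * V) e6
    have e8 : i = i' := Fin.ext e7
    have e9 : l = l' := Fin.ext e4
    rw [e8, e9]

theorem fdir_ne (x : Lab M s V × Obj M s V) : fdir x ≠ 0 := by
  obtain ⟨φ, ⟨c, r⟩ | ⟨i, l⟩⟩ := x <;> simp [fdir, pdir]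

theorem fam_directions (hs : 1 ≤ s) (hM : 1 ≤ M) (hV : 1 ≤ V) :
    HasDirections (M + 1) (fdir : Lab M s V × Obj M s V → ℝ × ℝ) := by
  have hV0 : (0 : ℝ) < V := by exact_mod_cast hV
  have φ0 : Lab M s V := fun _ _ => ⟨0, hV⟩
  have hL : 0 < 4 * M ^ 2 * s * V := by positivity
  refine ⟨Fin.cons (0, 1) (fun i : Fin M => ((1, -(2 * V * (i : ℕ))) : ℝ × ℝ)), ?_, ?_, ?_⟩
  · intro k l
    refine Fin.cases ?_ (fun i => ?_) k <;> refine Fin.cases ?_ (fun j => ?_) l
    · intro _; rfl
    · rintro ⟨c, hc, h⟩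
      simp at h
      exact absurd h.1 hc.ne
    · rintro ⟨c, hc, h⟩
      simp at h
    · rintro ⟨c, hc, h⟩
      simp at h
      obtain ⟨h1, h2⟩ := h
      subst h1
      have h3 : (2 * (V : ℝ)) * ((i : ℕ) : ℝ) = (2 * (V : ℝ)) * ((j : ℕ) : ℝ) := by linarith
      have h4 := mul_left_cancel₀ (by positivity) h3
      have h5 : (i : ℕ) = j := by exact_mod_cast h4
      rw [Fin.ext h5]
  · rintro ⟨φ, ⟨c, r⟩ | ⟨i, l⟩⟩
    · exact ⟨0, 1, one_pos, by simp [fdir, pdir]⟩
    · exact ⟨i.succ, 1, one_pos, by simp [fdir, pdir]⟩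
  · intro k
    refine Fin.cases ?_ (fun i => ?_) k
    · exact ⟨(φ0, .inl (⟨0, hs⟩, ⟨0, hs⟩)), 1, one_pos, by simp [fdir, pdir]⟩
    · exact ⟨(φ0, .inr (i, ⟨0, hL⟩)), 1, one_pos, by simp [fdir, pdir]⟩

theorem fam_blocking (hM : 1 ≤ M) (hs : 1 ≤ s) (hV : 1 ≤ V) (hν : Function.Injective ν) :
    BlockingFamily (M + 1) (Lab M s V × Obj M s V) (fam ν) fdir where
  finite := inferInstance
  nonempty := by
    rintro ⟨φ, ⟨c, r⟩ | ⟨i, l⟩⟩
    · exact ⟨vtx φ _ c r ⟨0, hM⟩, subset_convexHull ℝ _ ⟨_, rfl⟩⟩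
    · exact ⟨_, rfl⟩
  compact := by
    rintro ⟨φ, ⟨c, r⟩ | ⟨i, l⟩⟩
    · exact (Set.finite_range _).isCompact_convexHull ℝ
    · exact isCompact_singleton
  convex := by
    rintro ⟨φ, ⟨c, r⟩ | ⟨i, l⟩⟩
    · exact convex_convexHull _ _
    · exact convex_singleton _
  disjoint := fam_disjoint hM hs hV hν
  dir_ne := fdir_ne
  acyclic := fam_acyclic hM hs hV hν
  directions := fam_directions hs hM hV

/-- the order of a part determines its label -/
theorem label_determined (hM : 2 ≤ M) (hs : 1 ≤ s) (hV : 1 ≤ V) (hν : Function.Injective ν)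
    (φ φ' : Lab M s V)
    (h : ∀ x y : Obj M s V, BlockingOrder (fam ν) fdir (φ, x) (φ, y) ↔
      BlockingOrder (fam ν) fdir (φ', x) (φ', y)) : φ = φ' := by
  have key : ∀ φ φ' : Lab M s V,
      (∀ x y : Obj M s V, BlockingOrder (fam ν) fdir (φ, x) (φ, y) →
        BlockingOrder (fam ν) fdir (φ', x) (φ', y)) →
      ∀ c r i, (φ (c, r) i : ℕ) ≤ φ' (c, r) i := by
    intro φ φ' h c r i
    have hl : base M V i c r + φ (c, r) i < 4 * M ^ 2 * s * V :=
      base_lt i.2 c.2 r.2 (φ (c, r) i).2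
    have h1 : Blocks (fam ν) fdir (φ, .inl (c, r)) (φ, .inr (i, ⟨_, hl⟩)) :=
      blocks_probe_of hM hs hV (by simp) (by simp)
    have h2 := h _ _ (Relation.TransGen.single h1)
    rcases order_poly (by omega) hs hV hν h2 with ⟨r', _, e⟩ | ⟨i', l', e, hle⟩
    · simp at e
    · have e1 : (i, (⟨_, hl⟩ : Fin (4 * M ^ 2 * s * V))) = (i', l') := by simpa using e
      have e2 : i = i' := congrArg Prod.fst e1
      have e3 : (⟨_, hl⟩ : Fin (4 * M ^ 2 * s * V)) = l' := congrArg Prod.snd e1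
      subst e2
      rw [← e3] at hle
      simp only at hle
      omega
  funext x i
  obtain ⟨c, r⟩ := x
  apply Fin.ext
  exact le_antisymm (key φ φ' (fun x y => (h x y).1) c r i) (key φ' φ (fun x y => (h x y).2) c r i)

end order

theorem exists_cr_ne {m : ℕ} (hm : 3 ≤ m) {v : Fin m → ℝ × ℝ} (hv : ∀ i, v i ≠ 0)
    (hinj : ∀ k l, SameDirection (v k) (v l) → k = l) : ∃ i j, cr (v i) (v j) ≠ 0 := by
  by_contra hcon
  push Not at hcon
  have h0 : 0 < m := by omega
  have h1 : 1 < m := by omega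
  have h2 : 2 < m := by omega
  have par : ∀ i : Fin m, (i : ℕ) ≠ 0 → ∃ t : ℝ, t < 0 ∧ v i = t • v ⟨0, h0⟩ := by
    intro i hi
    obtain ⟨t, ht⟩ := par_of_cr (v := v ⟨0, h0⟩) (x := 0) (y := v i) (hv _)
      (by rw [sub_zero]; exact hcon _ _)
    rw [zero_add] at ht
    refine ⟨t, ?_, ht⟩
    by_contra hneg
    push Not at hneg
    rcases lt_or_eq_of_le hneg with h3 | h3
    · have := hinj i ⟨0, h0⟩ ⟨t, h3, ht⟩
      exact hi (congrArg Fin.val this)
    · rw [← h3, zero_smul] at ht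
      exact hv i ht
  obtain ⟨t1, ht1, e1⟩ := par ⟨1, h1⟩ (by simp)
  obtain ⟨t2, ht2, e2⟩ := par ⟨2, h2⟩ (by simp)
  have : SameDirection (v ⟨2, h2⟩) (v ⟨1, h1⟩) := by
    refine ⟨t2 / t1, div_pos_of_neg_of_neg ht2 ht1, ?_⟩
    rw [e1, e2, smul_smul, div_mul_cancel₀ _ ht1.ne]
  have := congrArg Fin.val (hinj _ _ this)
  simp at this

/-- If there are more labels than the counting bound allows, the family has no segment model. -/
theorem no_model {M s V : ℕ} (hM : 2 ≤ M) (hs : 1 ≤ s) (hV : 1 ≤ V)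
    {ν : Lab M s V → ℕ} (hν : Function.Injective ν)
    (hbig : (M + 1) ^ Fintype.card (Obj M s V) *
      ((4 * Fintype.card (Obj M s V) ^ 2 * (M + 1) + 1) ^ (4 * Fintype.card (Obj M s V)) *
        (Fintype.card (Obj M s V) + 1) ^ Fintype.card (Obj M s V)) <
      Fintype.card (Lab M s V))
    {κ' : Type} {G : κ' → Set (ℝ × ℝ)} {g : κ' → ℝ × ℝ} (hG : BlockingFamily (M + 1) κ' G g)
    (hseg : ∀ k, ∃ p q : ℝ × ℝ, G k = segment ℝ p q) (e : Lab M s V × Obj M s V ≃ κ')
    (he : ∀ i j, BlockingOrder (fam ν) fdir i j ↔ BlockingOrder G g (e i) (e j)) : False := by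
  choose P Q hPQ using hseg
  obtain ⟨v, hv1, hv2, hv3⟩ := hG.directions
  choose κ hκ using hv2
  have hv : ∀ k, v k ≠ 0 := by
    intro k h0
    obtain ⟨i, c, _, hi⟩ := hv3 k
    rw [h0, smul_zero] at hi
    exact hG.dir_ne i hi
  have hnp := exists_cr_ne (by omega) hv hv1
  have hrel : ∀ φ x y, SegRel v (fun x => P (e (φ, x))) (fun x => Q (e (φ, x)))
      (fun x => κ (e (φ, x))) x y ↔ Blocks G g (e (φ, x)) (e (φ, y)) := by
    intro φ x y
    unfold SegRel Blocks Ahead
    rw [← hPQ, ← hPQ]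
    have hne : x ≠ y ↔ e (φ, x) ≠ e (φ, y) := by
      rw [not_iff_not, e.injective.eq_iff]
      simp
    rw [hne]
    obtain ⟨c, hc, hgc⟩ := hκ (e (φ, y))
    constructor
    · rintro ⟨h1, p, hp, q, hq, t, ht, h⟩
      refine ⟨h1, p, hp, q, hq, t / c, div_pos ht hc, ?_⟩
      rw [hgc, smul_smul, div_mul_cancel₀ _ hc.ne', h]
    · rintro ⟨h1, p, hp, q, hq, t, ht, h⟩
      refine ⟨h1, p, hp, q, hq, t * c, mul_pos ht hc, ?_⟩
      rw [h, hgc, smul_smul]
  have htrans : ∀ φ x y, BlockingOrder (fam ν) fdir (φ, x) (φ, y) ↔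
      Relation.TransGen (SegRel v (fun x => P (e (φ, x))) (fun x => Q (e (φ, x)))
        (fun x => κ (e (φ, x)))) x y := by
    intro φ x y
    constructor
    · intro h
      rw [he] at h
      have main : ∀ w, Relation.TransGen (Blocks G g) (e (φ, x)) w → ∀ y, w = e (φ, y) →
          Relation.TransGen (SegRel v (fun x => P (e (φ, x))) (fun x => Q (e (φ, x)))
            (fun x => κ (e (φ, x)))) x y := by
        intro w hw
        induction hw with
        | single h1 =>
          rintro y rfl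
          exact Relation.TransGen.single ((hrel _ _ _).2 h1)
        | @tail b c h1 h2 ih =>
          rintro y rfl
          obtain ⟨⟨φ', y'⟩, rfl⟩ := e.surjective b
          have h3 : φ' = φ := order_same_part (by omega) hs hV hν
            ((he (φ', y') (φ, y)).2 (Relation.TransGen.single h2))
          subst h3
          exact (ih y' rfl).tail ((hrel _ _ _).2 h2)
      exact main _ h y rfl
    · intro h
      rw [he]
      have : ∀ z, Relation.TransGen (SegRel v (fun x => P (e (φ, x))) (fun x => Q (e (φ, x)))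
            (fun x => κ (e (φ, x)))) x z → Relation.TransGen (Blocks G g) (e (φ, x)) (e (φ, z)) := by
        intro z hz
        induction hz with
        | single h1 => exact Relation.TransGen.single ((hrel _ _ _).1 h1)
        | tail _ h2 ih => exact ih.tail ((hrel _ _ _).1 h2)
      exact this y h
  have := count hv hnp ⟨0, by omega⟩ (fun φ x => P (e (φ, x))) (fun φ x => Q (e (φ, x)))
    (fun φ x => κ (e (φ, x))) (fun φ x y hxy => by
      rw [← hPQ, ← hPQ]
      apply hG.disjoint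
      intro h
      have := e.injective h
      simp at this
      exact hxy this) (fun φ φ' h => by
      apply label_determined hM hs hV hν
      intro x y
      rw [htrans, htrans]
      have : SegRel v (fun x => P (e (φ, x))) (fun x => Q (e (φ, x))) (fun x => κ (e (φ, x))) =
          SegRel v (fun x => P (e (φ', x))) (fun x => Q (e (φ', x)))
            (fun x => κ (e (φ', x))) := by
        funext x y
        exact propext (h x y)
      rw [this])
  exact absurd this (not_le.2 hbig)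

theorem numbers {M N : ℕ} (hM : 19 ≤ M) (hN : N = 1024 * M ^ 3) :
    (M + 1) ^ Fintype.card (Obj M (N ^ 31) (N ^ 30)) *
      ((4 * Fintype.card (Obj M (N ^ 31) (N ^ 30)) ^ 2 * (M + 1) + 1) ^
        (4 * Fintype.card (Obj M (N ^ 31) (N ^ 30))) *
        (Fintype.card (Obj M (N ^ 31) (N ^ 30)) + 1) ^ Fintype.card (Obj M (N ^ 31) (N ^ 30))) <
      Fintype.card (Lab M (N ^ 31) (N ^ 30)) := by
  have hX : Fintype.card (Obj M (N ^ 31) (N ^ 30)) = N ^ 62 + 4 * M ^ 3 * N ^ 61 := by
    simp only [Fintype.card_sum, Fintype.card_prod, Fintype.card_fin]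
    ring
  have hΦ : Fintype.card (Lab M (N ^ 31) (N ^ 30)) = N ^ (30 * M * N ^ 62) := by
    simp only [Fintype.card_fun, Fintype.card_prod, Fintype.card_fin]
    rw [← pow_mul, ← pow_mul]
    congr 1
    ring
  have hM3 : M ≤ M ^ 3 := Nat.le_self_pow (by norm_num) M
  have hN1 : 16 * (M + 1) + 1 ≤ N := by rw [hN]; omega
  have hNpos : 1 < N := by omega
  rw [hΦ, hX]
  set X := N ^ 62 + 4 * M ^ 3 * N ^ 61 with hXdef
  have h256 : 256 * X = 257 * N ^ 62 := by
    have h1 : N ^ 62 = 1024 * (M ^ 3 * N ^ 61) := by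
      calc N ^ 62 = N * N ^ 61 := by ring
        _ = 1024 * M ^ 3 * N ^ 61 := by rw [← hN]
        _ = _ := by ring
    have h2 : X = N ^ 62 + 4 * (M ^ 3 * N ^ 61) := by rw [hXdef]; ring
    omega
  have hX2 : X ≤ 2 * N ^ 62 := by omega
  have hpos : 1 ≤ N ^ 62 := Nat.one_le_pow _ _ (by omega)
  have a1 : M + 1 ≤ N ^ 1 := by rw [pow_one]; omega
  have a2 : 4 * X ^ 2 * (M + 1) + 1 ≤ N ^ 125 := by
    calc 4 * X ^ 2 * (M + 1) + 1 ≤ 4 * (2 * N ^ 62) ^ 2 * (M + 1) + 1 := by gcongr
      _ = 16 * (M + 1) * N ^ 124 + 1 := by ring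
      _ ≤ 16 * (M + 1) * N ^ 124 + 1 * N ^ 124 := by
        have : 1 ≤ N ^ 124 := Nat.one_le_pow _ _ (by omega)
        omega
      _ = (16 * (M + 1) + 1) * N ^ 124 := by ring
      _ ≤ N * N ^ 124 := Nat.mul_le_mul_right _ hN1
      _ = N ^ 125 := by ring
  have a3 : X + 1 ≤ N ^ 63 := by
    calc X + 1 ≤ 3 * N ^ 62 := by omega
      _ ≤ N * N ^ 62 := Nat.mul_le_mul_right _ (by omega)
      _ = N ^ 63 := by ring
  calc (M + 1) ^ X * ((4 * X ^ 2 * (M + 1) + 1) ^ (4 * X) * (X + 1) ^ X)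
      ≤ (N ^ 1) ^ X * ((N ^ 125) ^ (4 * X) * (N ^ 63) ^ X) := by gcongr
    _ = N ^ (564 * X) := by
      rw [← pow_mul, ← pow_mul, ← pow_mul, ← pow_add, ← pow_add]
      congr 1
      ring
    _ < N ^ (30 * M * N ^ 62) := by
      apply Nat.pow_lt_pow_right hNpos
      have h1 : 30 * 19 * N ^ 62 ≤ 30 * M * N ^ 62 := by gcongr
      omega

/-- For every `m ≥ 20` there is a finite family of pairwise disjoint nonempty compact convex
figures with `m` directions of motion and without blocking cycles whose blocking order is not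
isomorphic to the blocking order of any finite family of pairwise disjoint closed line segments
with `m` directions of motion. -/
theorem result : ∀ m : ℕ, 20 ≤ m →
    ∃ (ι : Type) (F : ι → Set (ℝ × ℝ)) (d : ι → ℝ × ℝ), BlockingFamily m ι F d ∧
      ∀ (κ : Type) (G : κ → Set (ℝ × ℝ)) (g : κ → ℝ × ℝ), BlockingFamily m κ G g →
        (∀ k, ∃ p q : ℝ × ℝ, G k = segment ℝ p q) →
          ¬ ∃ e : ι ≃ κ, ∀ i j, BlockingOrder F d i j ↔ BlockingOrder G g (e i) (e j) := by
  intro m hm
  obtain ⟨M, rfl⟩ : ∃ M, m = M + 1 := ⟨m - 1, by omega⟩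
  obtain ⟨N, hN⟩ : ∃ N, N = 1024 * M ^ 3 := ⟨_, rfl⟩
  have hM0 : 0 < M := by omega
  have hN0 : 0 < N := by rw [hN]; positivity
  have h30 : 1 ≤ N ^ 30 := Nat.one_le_pow _ _ hN0
  have h31 : 1 ≤ N ^ 31 := Nat.one_le_pow _ _ hN0
  obtain ⟨ν, hν⟩ := Countable.exists_injective_nat (Lab M (N ^ 31) (N ^ 30))
  refine ⟨_, fam ν, fdir, fam_blocking (by omega) h31 h30 hν, ?_⟩
  rintro κ G g hG hseg ⟨e, he⟩
  exact no_model (by omega) h31 h30 hν (numbers (by omega) hN) hG hseg e he

end Pool.Agent.Results.MP_461429_co.SegNotEnough
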